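import Pool.Agent.Y332.MD.Sup3

/-!
# The support function lies below `Ψ`
-/

set_option autoImplicit false

namespace Pool.Agent.Y332.MD

open MeasureTheory Set Filter Topology intervalIntegral

/-- the corners -/
noncomputable def rh (m : ℝ → ℝ → ℝ) (s0 v0 S R : ℝ) : ℝ := if R ≤ S then rr m s0 v0 R else R

/-- the corner functions -/
noncomputable def CC (R r s v : ℝ) : ℝ := max (R - s) 0 * max (r - v) 0 - (R - s) * (r - v)

theorem CC_left {R r s v : ℝ} (h : R ≤ s) : CC R r s v = (s - R) * (r - v) := by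
  unfold CC
  rw [max_eq_right (by linarith : R - s ≤ 0)]
  ring

theorem CC_right {R r s v : ℝ} (h : s ≤ R) : CC R r s v = (R - s) * max (v - r) 0 := by
  unfold CC
  rw [max_eq_left (by linarith : 0 ≤ R - s)]
  rcases le_total r v with h1 | h1
  · rw [max_eq_right (by linarith : r - v ≤ 0), max_eq_left (by linarith : 0 ≤ v - r)]
    ring
  · rw [max_eq_left (by linarith : 0 ≤ r - v), max_eq_right (by linarith : v - r ≤ 0)]
    ring

namespace Co

variable {Ψ p q m w : ℝ → ℝ → ℝ} (D : Co Ψ p q m w) {s0 v0 : ℝ}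

section
include D

theorem rh_ge (h0 : |v0| < s0) {S R : ℝ} (hR : s0 ≤ R) : v0 ≤ rh m s0 v0 S R := by
  unfold rh
  split_ifs
  · exact D.rr_ge h0 hR
  · have := (abs_lt.1 h0).2; linarith

theorem rh_le (h0 : |v0| < s0) {S R : ℝ} (hR : s0 ≤ R) : rh m s0 v0 S R ≤ R := by
  unfold rh
  split_ifs
  · exact D.rr_le h0 hR
  · exact le_rfl

theorem rh_mono (h0 : |v0| < s0) (S : ℝ) : MonotoneOn (rh m s0 v0 S) (Ici s0) := by
  intro x hx y hy hxy
  unfold rh
  split_ifs with h1 h2 h2
  · exact D.rr_mono h0 hx hxy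
  · exact (D.rr_le h0 hx).trans hxy
  · exact absurd (hxy.trans h2) h1
  · exact hxy

theorem rhi (h0 : |v0| < s0) (S : ℝ) {x y : ℝ} (hx : s0 ≤ x) (hy : s0 ≤ y) :
    IntervalIntegrable (rh m s0 v0 S) volume x y := ii_mono (D.rh_mono h0 S) hx hy

theorem rhwi (h0 : |v0| < s0) (S : ℝ) {x y : ℝ} (hx : s0 ≤ x) (hy : s0 ≤ y) :
    IntervalIntegrable (fun R => (rh m s0 v0 S R - v0) * w R v0) volume x y :=
  ((D.rhi h0 S hx hy).sub (continuous_const.intervalIntegrable _ _)).mul_continuousOn
    (D.cws v0).continuousOn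

theorem rhc (h0 : |v0| < s0) (S : ℝ) {x y : ℝ} (hx : s0 ≤ x) (hy : s0 ≤ y) :
    IntervalIntegrable (fun R => (R - rh m s0 v0 S R) * w R v0) volume x y :=
  ((continuous_id.intervalIntegrable _ _).sub (D.rhi h0 S hx hy)).mul_continuousOn
    (D.cws v0).continuousOn

/-- integrals up to `S` only see `rr` -/
theorem rh_int_le (F : ℝ → ℝ → ℝ) {S x y : ℝ} (hx : x ≤ y) (hy : y ≤ S) :
    ∫ R in x..y, F (rh m s0 v0 S R) R = ∫ R in x..y, F (rr m s0 v0 R) R := by
  apply integral_congr
  intro R hR
  rw [uIcc_of_le hx] at hR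
  simp only [rh, if_pos (hR.2.trans hy)]

theorem rh_int_ge (F : ℝ → ℝ → ℝ) {S x y : ℝ} (hx : x ≤ y) (hS : S ≤ x) :
    ∫ R in x..y, F (rh m s0 v0 S R) R = ∫ R in x..y, F R R := by
  rw [integral_of_le hx, integral_of_le hx]
  apply setIntegral_congr_fun measurableSet_Ioc
  intro R hR
  simp only [rh, if_neg (not_le.2 (hS.trans_lt hR.1))]

theorem Gt_le (h0 : |v0| < s0) {S Rm s : ℝ} (hS : s0 ≤ S) (hSR : S ≤ Rm)
    (hU : S < Rm → ∫ R in s0..S, (R - rr m s0 v0 R) * w R v0
      = (s0 - v0) * m s0 v0 + p s0 v0 - q s0 v0) (hs : s0 ≤ s) (hsR : s ≤ Rm) :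
    ∫ R in s0..s, (rh m s0 v0 S R - v0) * w R v0 ≤ p s v0 - p s0 v0 := by
  have hpos : 0 < s0 := lt_of_le_of_lt (abs_nonneg v0) h0
  rcases le_or_gt s S with h | h
  · rw [D.rh_int_le (fun r R => (r - v0) * w R v0) hs h]
    exact D.G_le h0 hs
  · have hU' := hU (h.trans_le hsR)
    rw [← integral_add_adjacent_intervals (D.rhwi h0 S le_rfl hS) (D.rhwi h0 S hS hs),
      D.rh_int_le (fun r R => (r - v0) * w R v0) hS le_rfl,
      D.rh_int_ge (fun r R => (r - v0) * w R v0) h.le le_rfl]
    have e1 : ∫ R in s0..S, (rr m s0 v0 R - v0) * w R v0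
        = (∫ R in s0..S, (R - v0) * w R v0) - ∫ R in s0..S, (R - rr m s0 v0 R) * w R v0 := by
      have i1 : IntervalIntegrable (fun R => (R - v0) * w R v0) volume s0 S :=
        ((continuous_id.sub continuous_const).mul (D.cws v0)).intervalIntegrable _ _
      have i2 : IntervalIntegrable (fun R => (R - rr m s0 v0 R) * w R v0) volume s0 S :=
        (((continuous_id.intervalIntegrable _ _).sub (D.rii h0 le_rfl hS)).mul_continuousOn
          (D.cws v0).continuousOn)
      rw [← integral_sub i1 i2]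
      congr 1
      ext R
      ring
    rw [e1, hU', D.int_Rw, D.int_Rw]
    have hU3 := D.Up (s := s) (v := v0) (by linarith) (h0.le.trans hs)
    linarith

theorem B_ge (h0 : |v0| < s0) {S Rm s : ℝ} (hS : s0 ≤ S) (hSR : S ≤ Rm)
    (hU : S < Rm → ∫ R in s0..S, (R - rr m s0 v0 R) * w R v0
      = (s0 - v0) * m s0 v0 + p s0 v0 - q s0 v0) (hs : s0 ≤ s) (hsR : s ≤ Rm) :
    ∫ R in s0..s, (s - R) * ((rh m s0 v0 S R - v0) * w R v0)
      ≤ Ψ s v0 - Ψ s0 v0 - (s - s0) * p s0 v0 := by
  have hk : ∀ R, s0 ≤ R → 0 ≤ (rh m s0 v0 S R - v0) * w R v0 := fun R hR =>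
    mul_nonneg (sub_nonneg.2 (D.rh_ge h0 hR)) (D.w_nn h0 hR)
  have hi : ∀ a b, s0 ≤ a → s0 ≤ b →
      IntervalIntegrable (fun R => (rh m s0 v0 S R - v0) * w R v0) volume a b :=
    fun a b ha hb => D.rhwi h0 S ha hb
  have key := mono_small
    (f := fun x => Ψ x v0 - Ψ s0 v0 - (x - s0) * p s0 v0
      - ∫ R in s0..x, (x - R) * ((rh m s0 v0 S R - v0) * w R v0))
    (ρ := fun x => ∫ R in s0..x, (rh m s0 v0 S R - v0) * w R v0) (a := s0) (b := s) (C := 1)
    hs ?_
  · simp only [integral_same] at key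
    linarith
  · intro x hx y hy hxy
    have h1 := head_incr hx.1 hxy hi hk
    have h2 := D.conv_s (s := x) (s' := y) (v := v0) (h0.le.trans hx.1) (h0.le.trans hy.1)
    have h3 := D.Gt_le h0 hS hSR hU hx.1 (hx.2.trans hsR)
    have h4 : (y - x) * (∫ R in s0..x, (rh m s0 v0 S R - v0) * w R v0)
        ≤ (y - x) * (p x v0 - p s0 v0) := mul_le_mul_of_nonneg_left h3 (by linarith)
    linarith

/-- the support function -/
theorem supp_le (h0 : |v0| < s0) {S Rm s v : ℝ} (hS : s0 ≤ S) (hSR : S ≤ Rm)
    (hU : S < Rm → ∫ R in s0..S, (R - rr m s0 v0 R) * w R v0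
      = (s0 - v0) * m s0 v0 + p s0 v0 - q s0 v0) (hv : |v| ≤ s) (hsR : s ≤ Rm) :
    Ψ s0 v0 + p s0 v0 * (s - s0) + q s0 v0 * (v - v0) + m s0 v0 * ((s - s0) * (v - v0))
      + ∫ R in s0..Rm, CC R (rh m s0 v0 S R) s v * w R v0 ≤ Ψ s v := by
  have hv0 := abs_lt.1 h0
  have ha := abs_le.1 hv
  have hRm : s0 ≤ Rm := hS.trans hSR
  -- positive parts
  have hpm : ∀ v : ℝ, AntitoneOn (fun R => max (v - rh m s0 v0 S R) 0) (Ici s0) := by
    intro v a ha b hb hab
    exact max_le_max (by linarith [D.rh_mono h0 S ha hb hab]) le_rfl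
  have hpi : ∀ v x y : ℝ, s0 ≤ x → s0 ≤ y →
      IntervalIntegrable (fun R => max (v - rh m s0 v0 S R) 0 * w R v0) volume x y := by
    intro v x y hx hy
    refine IntervalIntegrable.mul_continuousOn ?_ (D.cws v0).continuousOn
    apply AntitoneOn.intervalIntegrable
    apply (hpm v).mono
    intro t ht
    exact (le_min hx hy).trans ht.1
  have hpi2 : ∀ c v x y : ℝ, s0 ≤ x → s0 ≤ y →
      IntervalIntegrable (fun R => (R - c) * (max (v - rh m s0 v0 S R) 0 * w R v0)) volume x y :=
    fun c v x y hx hy => (hpi v x y hx hy).continuousOn_mul (by fun_prop)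
  -- the tail only sees `rr`
  have tail : ∀ c s v : ℝ, s0 ≤ s → s ≤ S → v ≤ s →
      ∫ R in s..Rm, (R - c) * (max (v - rh m s0 v0 S R) 0 * w R v0)
        = ∫ R in s..S, (R - c) * (max (v - rr m s0 v0 R) 0 * w R v0) := by
    intro c s v hs hsS hvs
    rw [← integral_add_adjacent_intervals (hpi2 c v s S hs hS) (hpi2 c v S Rm hS hRm),
      D.rh_int_le (fun r R => (R - c) * (max (v - r) 0 * w R v0)) hsS le_rfl,
      D.rh_int_ge (fun r R => (R - c) * (max (v - r) 0 * w R v0)) hSR le_rfl]
    have : ∫ R in S..Rm, (R - c) * (max (v - R) 0 * w R v0) = 0 := by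
      rw [integral_congr (g := fun _ => (0 : ℝ)), intervalIntegral.integral_zero]
      intro R hR
      rw [uIcc_of_le hSR] at hR
      simp only
      rw [max_eq_right (by linarith [hR.1] : v - R ≤ 0)]
      ring
    rw [this, add_zero]
  rcases le_total s0 s with hs | hs
  · -- `s0 ≤ s`
    have j1 : ∫ R in s0..s, CC R (rh m s0 v0 S R) s v * w R v0
        = (∫ R in s0..s, (s - R) * ((rh m s0 v0 S R - v0) * w R v0))
          - (v - v0) * ∫ R in s0..s, (s - R) * w R v0 := by
      have i1 : IntervalIntegrable (fun R => (s - R) * ((rh m s0 v0 S R - v0) * w R v0))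
          volume s0 s := (D.rhwi h0 S le_rfl hs).continuousOn_mul (by fun_prop)
      have cw := D.cws v0
      have i2 : IntervalIntegrable (fun R => (v - v0) * ((s - R) * w R v0)) volume s0 s :=
        Continuous.intervalIntegrable (by fun_prop) _ _
      rw [← intervalIntegral.integral_const_mul, ← integral_sub i1 i2]
      apply integral_congr
      intro R hR
      rw [uIcc_of_le hs] at hR
      simp only
      rw [CC_left hR.2]
      ring
    have j2 : ∫ R in s..Rm, CC R (rh m s0 v0 S R) s v * w R v0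
        = ∫ R in s..Rm, (R - s) * (max (v - rh m s0 v0 S R) 0 * w R v0) := by
      apply integral_congr
      intro R hR
      rw [uIcc_of_le hsR] at hR
      simp only
      rw [CC_right hR.1]
      ring
    have jI : ∀ x y, s0 ≤ x → s0 ≤ y →
        IntervalIntegrable (fun R => CC R (rh m s0 v0 S R) s v * w R v0) volume x y := by
      intro x y hx hy
      refine IntervalIntegrable.mul_continuousOn ?_ (D.cws v0).continuousOn
      have k1 : IntervalIntegrable (fun R => max (rh m s0 v0 S R - v) 0) volume x y := by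
        apply ii_mono _ hx hy
        intro a ha b hb hab
        exact max_le_max (by linarith [D.rh_mono h0 S ha hb hab]) le_rfl
      have k2 : IntervalIntegrable (fun R => rh m s0 v0 S R - v) volume x y :=
        (D.rhi h0 S hx hy).sub (continuous_const.intervalIntegrable _ _)
      exact (k1.continuousOn_mul (by fun_prop : ContinuousOn (fun R => max (R - s) 0) _)).sub
        (k2.continuousOn_mul (by fun_prop : ContinuousOn (fun R => R - s) _))
    rw [← integral_add_adjacent_intervals (jI s0 s le_rfl hs) (jI s Rm hs hRm), j1, j2,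
      D.int_sRw]
    have hB := D.B_ge h0 hS hSR hU hs hsR
    rcases le_total v v0 with h | h
    · have z : ∫ R in s..Rm, (R - s) * (max (v - rh m s0 v0 S R) 0 * w R v0) = 0 := by
        rw [integral_congr (g := fun _ => (0 : ℝ)), intervalIntegral.integral_zero]
        intro R hR
        rw [uIcc_of_le hsR] at hR
        simp only
        rw [max_eq_right (by linarith [D.rh_ge h0 (S := S) (hs.trans hR.1)])]
        ring
      have hc := D.conv_v (s := s) (v := v0) (v' := v) (h0.le.trans hs) hv
      rw [z]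
      linarith
    · rcases le_total s S with hsS | hsS
      · rw [tail s s v hs hsS ha.2]
        have := D.I1 h0 hs hsS h ha.2
        linarith
      · have z : ∫ R in s..Rm, (R - s) * (max (v - rh m s0 v0 S R) 0 * w R v0) = 0 := by
          rw [D.rh_int_ge (fun r R => (R - s) * (max (v - r) 0 * w R v0)) hsR hsS,
            integral_congr (g := fun _ => (0 : ℝ)), intervalIntegral.integral_zero]
          intro R hR
          rw [uIcc_of_le hsR] at hR
          simp only
          rw [max_eq_right (by linarith [hR.1] : v - R ≤ 0)]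
          ring
        have hc := D.conv_v (s := s) (v := v0) (v' := v) (h0.le.trans hs) hv
        rw [z]
        linarith
  · -- `s ≤ s0`
    have hv' : |v| ≤ s0 := hv.trans hs
    have j2 : ∫ R in s0..Rm, CC R (rh m s0 v0 S R) s v * w R v0
        = ∫ R in s0..Rm, (R - s) * (max (v - rh m s0 v0 S R) 0 * w R v0) := by
      apply integral_congr
      intro R hR
      rw [uIcc_of_le hRm] at hR
      simp only
      rw [CC_right (hs.trans hR.1)]
      ring
    rw [j2]
    have hcs := D.conv_s (s := s0) (s' := s) (v := v) hv' hv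
    rcases le_total v v0 with h | h
    · have z : ∫ R in s0..Rm, (R - s) * (max (v - rh m s0 v0 S R) 0 * w R v0) = 0 := by
        rw [integral_congr (g := fun _ => (0 : ℝ)), intervalIntegral.integral_zero]
        intro R hR
        rw [uIcc_of_le hRm] at hR
        simp only
        rw [max_eq_right (by linarith [D.rh_ge h0 (S := S) hR.1])]
        ring
      have hc := D.conv_v (s := s0) (v := v0) (v' := v) h0.le hv'
      have hpv := D.int_mv s0 v v0
      have hm : ∫ t in v..v0, m s0 v0 ≤ ∫ t in v..v0, m s0 t := by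
        refine integral_mono_on h (continuous_const.intervalIntegrable _ _)
          ((D.cmv s0).intervalIntegrable _ _) fun t ht => ?_
        exact D.M2 s0 t v0 (by linarith [ht.1]) ht.2 hv0.2.le
      rw [intervalIntegral.integral_const, smul_eq_mul, hpv] at hm
      rw [z]
      nlinarith
    · rw [tail s s0 v le_rfl hS (ha.2.trans hs)]
      have i1 := D.I1 h0 le_rfl hS h (ha.2.trans hs)
      have z1 := D.Z_le h0 le_rfl h (ha.2.trans hs) hS
      have hgi := D.gwii h0 v le_rfl hS
      have e1 : ∫ R in s0..S, (R - s) * (max (v - rr m s0 v0 R) 0 * w R v0)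
          = (∫ R in s0..S, (R - s0) * (max (v - rr m s0 v0 R) 0 * w R v0))
            + (s0 - s) * ∫ R in s0..S, max (v - rr m s0 v0 R) 0 * w R v0 := by
        rw [← intervalIntegral.integral_const_mul, ← integral_add
          (hgi.continuousOn_mul (by fun_prop)) (hgi.const_mul _)]
        congr 1
        ext R
        ring
      rw [integral_sub (continuous_const.intervalIntegrable _ _)
        ((D.cmv s0).intervalIntegrable _ _), D.int_mv, intervalIntegral.integral_const,
        smul_eq_mul] at z1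
      have e2 := mul_le_mul_of_nonneg_left z1 (sub_nonneg.2 hs)
      rw [e1]
      linarith

end

end Co

end Pool.Agent.Y332.MD
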