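import Pool.Agent.Y332.MD.Ker
import Pool.Agent.Y332.MD.Sup4
import Pool.Agent.TH937.FF4.Gen

/-!
# Quasiconvexity at every point
-/

set_option autoImplicit false

namespace Pool.Agent.Y332.MD

open MeasureTheory Set Filter Topology Metric
open scoped ComplexConjugate
open Pool.Agent.TH937.ZC

theorem QL_norm1 {c : ℝ} (hc : 0 ≤ c) (F0 : ℂ × ℂ) : QL (fun F => c * ‖F.1‖) F0 := by
  apply QL_conv (by fun_prop)
  refine ⟨convex_univ, fun x _ y _ s t hs ht hst => ?_⟩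
  simp only [Prod.fst_add, Prod.smul_fst, smul_eq_mul]
  have h1 := norm_add_le (s • x.1) (t • y.1)
  rw [norm_smul, norm_smul, Real.norm_of_nonneg hs, Real.norm_of_nonneg ht] at h1
  nlinarith

theorem QL_norm2 {c : ℝ} (hc : 0 ≤ c) (F0 : ℂ × ℂ) : QL (fun F => c * ‖F.2‖) F0 := by
  apply QL_conv (by fun_prop)
  refine ⟨convex_univ, fun x _ y _ s t hs ht hst => ?_⟩
  simp only [Prod.snd_add, Prod.smul_snd, smul_eq_mul]
  have h1 := norm_add_le (s • x.2) (t • y.2)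
  rw [norm_smul, norm_smul, Real.norm_of_nonneg hs, Real.norm_of_nonneg ht] at h1
  nlinarith

namespace Co

variable {Ψ p q m w : ℝ → ℝ → ℝ} (D : Co Ψ p q m w)

include D in
theorem CCi {s0 v0 : ℝ} (h0 : |v0| < s0) (S s v : ℝ) {x y : ℝ} (hx : s0 ≤ x) (hy : s0 ≤ y) :
    IntervalIntegrable (fun R => CC R (rh m s0 v0 S R) s v * w R v0) volume x y := by
  refine IntervalIntegrable.mul_continuousOn ?_ (D.cws v0).continuousOn
  have k1 : IntervalIntegrable (fun R => max (rh m s0 v0 S R - v) 0) volume x y := by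
    apply ii_mono _ hx hy
    intro a ha b hb hab
    exact max_le_max (by linarith [D.rh_mono h0 S ha hb hab]) le_rfl
  have k2 : IntervalIntegrable (fun R => rh m s0 v0 S R - v) volume x y :=
    (D.rhi h0 S hx hy).sub (continuous_const.intervalIntegrable _ _)
  exact (k1.continuousOn_mul (by fun_prop : ContinuousOn (fun R => max (R - s) 0) _)).sub
    (k2.continuousOn_mul (by fun_prop : ContinuousOn (fun R => R - s) _))

include D in
theorem ql_int (hΨ : Continuous (fun z : ℝ × ℝ => Ψ z.1 z.2)) (F0 : ℂ × ℂ) {s0 v0 : ℝ}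
    (hs0 : s0 = ‖F0.1‖ + ‖F0.2‖) (hv0 : v0 = ‖F0.1‖ - ‖F0.2‖) (h0 : |v0| < s0) :
    QL (fun F => Ψ (‖F.1‖ + ‖F.2‖) (‖F.1‖ - ‖F.2‖)) F0 := by
  have hvv := abs_lt.1 h0
  have hpos : 0 < s0 := lt_of_le_of_lt (abs_nonneg v0) h0
  have hcw : Continuous (fun F : ℂ × ℂ => Ψ (‖F.1‖ + ‖F.2‖) (‖F.1‖ - ‖F.2‖)) :=
    hΨ.comp (f := fun F : ℂ × ℂ => (‖F.1‖ + ‖F.2‖, ‖F.1‖ - ‖F.2‖)) (by fun_prop)
  apply QL_support hcw
  intro T ε _ hε
  obtain ⟨Rm, hRm⟩ : ∃ Rm, Rm = max T s0 := ⟨_, rfl⟩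
  have hsR : s0 ≤ Rm := by rw [hRm]; exact le_max_right _ _
  have hTR : T ≤ Rm := by rw [hRm]; exact le_max_left _ _
  obtain ⟨S, hS1, hS2, hS3, hS4⟩ := D.thr h0 hsR
  obtain ⟨cl, hcl⟩ : ∃ cl : ℝ → ℝ, cl = fun R => max s0 (min R Rm) := ⟨_, rfl⟩
  have ccl : Continuous cl := by rw [hcl]; fun_prop
  have mcl : Monotone cl := by
    rw [hcl]
    intro a b hab
    exact max_le_max le_rfl (min_le_min hab le_rfl)
  have cl1 : ∀ R, s0 ≤ cl R := fun R => by rw [hcl]; exact le_max_left _ _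
  have cl2 : ∀ R, cl R ≤ Rm := fun R => by rw [hcl]; exact max_le hsR (min_le_right _ _)
  have cl3 : ∀ R, s0 ≤ R → R ≤ Rm → cl R = R := by
    intro R h1 h2
    rw [hcl]
    simp only
    rw [min_eq_left h2, max_eq_right h1]
  obtain ⟨ρ, hρ⟩ : ∃ ρ : ℝ → ℝ, ρ = fun R => rh m s0 v0 S (cl R) := ⟨_, rfl⟩
  have mρ : Monotone ρ := by
    rw [hρ]
    intro a b hab
    exact D.rh_mono h0 S (cl1 a) (cl1 b) (mcl hab)
  have ρ1 : ∀ R, v0 ≤ ρ R := fun R => by rw [hρ]; exact D.rh_ge h0 (cl1 R)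
  have ρ2 : ∀ R, ρ R ≤ cl R := fun R => by rw [hρ]; exact D.rh_le h0 (cl1 R)
  obtain ⟨k, hk⟩ : ∃ k : ℝ → ℂ × ℂ → ℝ, k = fun R F => w (cl R) v0 * KK (cl R) (ρ R) F :=
    ⟨_, rfl⟩
  have hkm : Measurable (fun z : ℝ × (ℂ × ℂ) => k z.1 z.2) := by
    rw [hk]
    apply Measurable.mul
    · exact ((D.cws v0).comp ccl).measurable.comp measurable_fst
    · exact cont_KK.measurable.comp ((ccl.measurable.comp measurable_fst).prodMk
        ((mρ.measurable.comp measurable_fst).prodMk measurable_snd))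
  have hkb : ∀ T : ℝ, ∃ M : ℝ, ∀ R F, ‖F.1‖ + ‖F.2‖ ≤ T → |k R F| ≤ M := by
    intro T
    obtain ⟨M1, hM1⟩ := (isCompact_Icc (a := s0) (b := Rm)).exists_bound_of_continuousOn
      (D.cws v0).continuousOn
    obtain ⟨M2, hM2⟩ := ((isCompact_Icc (a := s0) (b := Rm)).prod
      ((isCompact_Icc (a := v0) (b := Rm)).prod (isCompact_closedBall (0 : ℂ × ℂ) T)))
      |>.exists_bound_of_continuousOn cont_KK.continuousOn
    refine ⟨|M1| * |M2|, fun R F hF => ?_⟩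
    rw [hk]
    simp only
    rw [abs_mul]
    have a1 := hM1 (cl R) ⟨cl1 R, cl2 R⟩
    have a2 := hM2 (cl R, ρ R, F) ⟨⟨cl1 R, cl2 R⟩, ⟨ρ1 R, (ρ2 R).trans (cl2 R)⟩, by
      rw [mem_closedBall, dist_zero_right, Prod.norm_def]
      have := norm_nonneg F.1
      have := norm_nonneg F.2
      exact max_le (by linarith) (by linarith)⟩
    rw [Real.norm_eq_abs] at a1 a2
    exact mul_le_mul (a1.trans (le_abs_self _)) (a2.trans (le_abs_self _)) (abs_nonneg _)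
      (abs_nonneg _)
  have hkq : ∀ R, QL (k R) F0 := by
    intro R
    rw [hk]
    exact QL_smul (D.w_nn h0 (cl1 R)) (QL_KK (by linarith [cl1 R, ρ1 R]) (ρ2 R) F0)
  have hkc : Continuous (fun F => ∫ R in s0..Rm, k R F) := by
    rw [continuous_iff_continuousAt]
    intro F1
    obtain ⟨M, hM⟩ := hkb (‖F1.1‖ + ‖F1.2‖ + 1)
    refine intervalIntegral.continuousAt_of_dominated_interval (bound := fun _ => M) ?_ ?_
      (continuous_const.intervalIntegrable _ _) ?_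
    · exact Eventually.of_forall fun F =>
        (hkm.comp (measurable_id.prodMk measurable_const)).aestronglyMeasurable
    · have ho : IsOpen {F : ℂ × ℂ | ‖F.1‖ + ‖F.2‖ < ‖F1.1‖ + ‖F1.2‖ + 1} :=
        isOpen_lt (by fun_prop) continuous_const
      filter_upwards [ho.mem_nhds (by simp : F1 ∈ {F : ℂ × ℂ | ‖F.1‖ + ‖F.2‖
        < ‖F1.1‖ + ‖F1.2‖ + 1})] with F hF
      exact Eventually.of_forall fun R _ => hM R F (le_of_lt hF)
    · refine Eventually.of_forall fun R _ => ?_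
      rw [hk]
      exact (continuous_const.mul (cont_KK.comp
        (f := fun F : ℂ × ℂ => (cl R, ρ R, F)) (by fun_prop))).continuousAt
  -- the identity for the integral
  have hint : ∀ F : ℂ × ℂ, ∫ R in s0..Rm, k R F
      = (∫ R in s0..Rm, CC R (rh m s0 v0 S R) (‖F.1‖ + ‖F.2‖) (‖F.1‖ - ‖F.2‖) * w R v0)
        + ‖F.2‖ * (∫ R in s0..Rm, (R - rh m s0 v0 S R) * w R v0)
        + (‖F.1‖ ^ 2 - ‖F.2‖ ^ 2) * (∫ R in s0..Rm, w R v0)
        + ∫ R in s0..Rm, (R * rh m s0 v0 S R) * w R v0 := by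
    intro F
    have cw := D.cws v0
    have i1 := D.CCi h0 S (‖F.1‖ + ‖F.2‖) (‖F.1‖ - ‖F.2‖) le_rfl hsR
    have i2 : IntervalIntegrable (fun R => ‖F.2‖ * ((R - rh m s0 v0 S R) * w R v0)) volume s0 Rm :=
      (D.rhc h0 S le_rfl hsR).const_mul _
    have i3 : IntervalIntegrable (fun R => (‖F.1‖ ^ 2 - ‖F.2‖ ^ 2) * w R v0) volume s0 Rm :=
      (cw.intervalIntegrable _ _).const_mul _
    have i4 : IntervalIntegrable (fun R => (R * rh m s0 v0 S R) * w R v0) volume s0 Rm :=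
      ((D.rhi h0 S le_rfl hsR).continuousOn_mul (by fun_prop)).mul_continuousOn cw.continuousOn
    rw [← intervalIntegral.integral_const_mul, ← intervalIntegral.integral_const_mul,
      ← intervalIntegral.integral_add i1 i2, ← intervalIntegral.integral_add (i1.add i2) i3,
      ← intervalIntegral.integral_add ((i1.add i2).add i3) i4]
    apply intervalIntegral.integral_congr
    intro R hR
    rw [uIcc_of_le hsR] at hR
    simp only [hk, hρ]
    rw [cl3 R hR.1 hR.2]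
    unfold KK CC
    ring
  -- the support function
  have hUp := D.Up hpos h0.le
  have hUm := D.Um hpos h0.le
  have hcost : ∫ R in s0..Rm, (R - rh m s0 v0 S R) * w R v0
      ≤ (s0 - v0) * m s0 v0 + p s0 v0 - q s0 v0 := by
    rw [← intervalIntegral.integral_add_adjacent_intervals (D.rhc h0 S le_rfl hS1)
      (D.rhc h0 S hS1 hsR), D.rh_int_le (fun r R => (R - r) * w R v0) hS1 le_rfl,
      D.rh_int_ge (fun r R => (R - r) * w R v0) hS2 le_rfl]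
    simpa using hS3
  obtain ⟨co, hco⟩ : ∃ co, co = ∫ R in s0..Rm, (R - rh m s0 v0 S R) * w R v0 := ⟨_, rfl⟩
  obtain ⟨W, hW⟩ : ∃ W, W = ∫ R in s0..Rm, w R v0 := ⟨_, rfl⟩
  obtain ⟨I4, hI4⟩ : ∃ I4, I4 = ∫ R in s0..Rm, (R * rh m s0 v0 S R) * w R v0 := ⟨_, rfl⟩
  rw [← hco] at hcost
  have q1 := QL_norm1 hUm F0
  have q2 := QL_norm2 (c := (s0 - v0) * m s0 v0 + p s0 v0 - q s0 v0 - co) (by linarith) F0
  have q3 := QL_det (m s0 v0 - W) F0
  have q4 := QL_integral hsR F0 hkm hkb hkq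
  have q5 := QL_const (Ψ s0 v0 - p s0 v0 * s0 - q s0 v0 * v0 + m s0 v0 * (s0 * v0) - I4) F0
  have a1 := QL_add (by fun_prop) (by fun_prop) q1 q2
  have a2 := QL_add (by fun_prop) (by fun_prop) a1 q3
  have a3 := QL_add (by fun_prop) (by fun_prop) a2 q5
  have a4 := QL_add (by fun_prop) hkc a3 q4
  have hval : ∀ F : ℂ × ℂ, (p s0 v0 + q s0 v0 - (s0 + v0) * m s0 v0) * ‖F.1‖
      + ((s0 - v0) * m s0 v0 + p s0 v0 - q s0 v0 - co) * ‖F.2‖
      + (m s0 v0 - W) * (‖F.1‖ ^ 2 - ‖F.2‖ ^ 2)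
      + (Ψ s0 v0 - p s0 v0 * s0 - q s0 v0 * v0 + m s0 v0 * (s0 * v0) - I4)
      + ∫ R in s0..Rm, k R F
      = Ψ s0 v0 + p s0 v0 * (‖F.1‖ + ‖F.2‖ - s0) + q s0 v0 * (‖F.1‖ - ‖F.2‖ - v0)
        + m s0 v0 * ((‖F.1‖ + ‖F.2‖ - s0) * (‖F.1‖ - ‖F.2‖ - v0))
        + ∫ R in s0..Rm, CC R (rh m s0 v0 S R) (‖F.1‖ + ‖F.2‖) (‖F.1‖ - ‖F.2‖) * w R v0 := by
    intro F
    rw [hint F, ← hco, ← hW, ← hI4]
    ring
  refine ⟨_, ?_, a4, ?_, ?_⟩
  · exact (by fun_prop : Continuous (fun F : ℂ × ℂ =>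
      (p s0 v0 + q s0 v0 - (s0 + v0) * m s0 v0) * ‖F.1‖
      + ((s0 - v0) * m s0 v0 + p s0 v0 - q s0 v0 - co) * ‖F.2‖
      + (m s0 v0 - W) * (‖F.1‖ ^ 2 - ‖F.2‖ ^ 2)
      + (Ψ s0 v0 - p s0 v0 * s0 - q s0 v0 * v0 + m s0 v0 * (s0 * v0) - I4))).add hkc
  · intro F hF
    have n1 := norm_nonneg F.1
    have n2 := norm_nonneg F.2
    have := D.supp_le h0 hS1 hS2 hS4 (s := ‖F.1‖ + ‖F.2‖) (v := ‖F.1‖ - ‖F.2‖)
      (abs_le.2 ⟨by linarith, by linarith⟩) (hF.trans hTR)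
    rw [hval F]
    linarith
  · rw [hval F0, ← hs0, ← hv0]
    have hz : ∫ R in s0..Rm, CC R (rh m s0 v0 S R) s0 v0 * w R v0 = 0 := by
      rw [intervalIntegral.integral_congr (g := fun _ => (0 : ℝ)), intervalIntegral.integral_zero]
      intro R hR
      rw [uIcc_of_le hsR] at hR
      simp only
      rw [CC_right hR.1, max_eq_right (by linarith [D.rh_ge h0 (S := S) hR.1])]
      ring
    rw [hz]
    simp only [sub_self, mul_zero, add_zero]
    linarith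

include D in
theorem ql_all (hΨ : Continuous (fun z : ℝ × ℝ => Ψ z.1 z.2)) (F0 : ℂ × ℂ) :
    QL (fun F => Ψ (‖F.1‖ + ‖F.2‖) (‖F.1‖ - ‖F.2‖)) F0 := by
  have hcw : Continuous (fun F : ℂ × ℂ => Ψ (‖F.1‖ + ‖F.2‖) (‖F.1‖ - ‖F.2‖)) :=
    hΨ.comp (f := fun F : ℂ × ℂ => (‖F.1‖ + ‖F.2‖, ‖F.1‖ - ‖F.2‖)) (by fun_prop)
  apply QL_closed hcw
  intro δ hδ
  obtain ⟨F1, h1, h2, h3, h4⟩ := Pool.Agent.TH937.FF4.dense F0 hδ
  refine ⟨F1, h1, D.ql_int hΨ F1 rfl rfl ?_⟩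
  have n1 := norm_pos_iff.2 h2
  have n2 := norm_pos_iff.2 h3
  exact abs_lt.2 ⟨by linarith, by linarith⟩

end Co

end Pool.Agent.Y332.MD
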