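import Pool.Agent.TH937.ZC.Ql2

/-!
# Corner kernels

For `|r| ≤ R` the function `(R - s)₊ (r - v)₊ + (R + r) |u_z|` of `s = |u_z| + |u_zbar|` and
`v = |u_z| - |u_zbar|` is quasiconvex: it is a supremum of translates of the kernel
`c² + det + 2c K_c`.
-/

set_option autoImplicit false

namespace Pool.Agent.Y332.MD

open MeasureTheory Set Filter Topology Metric
open scoped ComplexConjugate
open Pool.Agent.W488.IW (dz dzb)
open Pool.Agent.W360.MQ (QA wf Kr)
open Pool.Agent.TH937.ZC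

/-- exact support functions -/
theorem QL_ge {w k : ℂ × ℂ → ℝ} (hw : Continuous w) (hk : Continuous k) {F0 : ℂ × ℂ}
    (q : QL k F0) (hle : ∀ F, k F ≤ w F) (h0 : w F0 ≤ k F0) : QL w F0 := by
  apply QL_support hw
  intro R ε _ hε
  refine ⟨k, hk, q, fun F _ => ?_, ?_⟩
  · linarith [hle F]
  · linarith

/-- the basic kernel `2 c x + ((c - x)₊² - y²)₊` -/
noncomputable def Kc (c x y : ℝ) : ℝ := 2 * c * x + max (max (c - x) 0 ^ 2 - y ^ 2) 0

/-- the kernel of the first family, minimal form -/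
noncomputable def Lc (c x y : ℝ) : ℝ := max (x + y - c) 0 * (c - (x - y))

theorem Kc_eq {c x y : ℝ} (hx : 0 ≤ x) (hy : 0 ≤ y) :
    Kc c x y = c ^ 2 + (x ^ 2 - y ^ 2) + Lc c x y := by
  unfold Kc Lc
  rcases le_total (x + y) c with h | h
  · rw [max_eq_right (by linarith : x + y - c ≤ 0), max_eq_left (by linarith : 0 ≤ c - x),
      max_eq_left (by nlinarith)]
    ring
  · rw [max_eq_left (by linarith : 0 ≤ x + y - c)]
    rcases le_total x c with h1 | h1
    · rw [max_eq_left (by linarith : 0 ≤ c - x), max_eq_right (by nlinarith)]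
      ring
    · rw [max_eq_right (by linarith : c - x ≤ 0), max_eq_right (by nlinarith [sq_nonneg y])]
      ring

theorem Kc_anti {c x y y' : ℝ} (hy : 0 ≤ y) (h : y ≤ y') : Kc c x y' ≤ Kc c x y := by
  unfold Kc
  have : max (max (c - x) 0 ^ 2 - y' ^ 2) 0 ≤ max (max (c - x) 0 ^ 2 - y ^ 2) 0 := by
    apply max_le_max _ le_rfl
    nlinarith
  linarith

theorem Kc_even (c x y : ℝ) : Kc c x |y| = Kc c x y := by
  unfold Kc
  rw [sq_abs]

theorem cont_Kc (c : ℝ) : Continuous (fun F : ℂ × ℂ => Kc c ‖F.1‖ ‖F.2‖) := by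
  unfold Kc
  fun_prop

theorem cont_Lc (c : ℝ) : Continuous (fun F : ℂ × ℂ => Lc c ‖F.1‖ ‖F.2‖) := by
  unfold Lc
  fun_prop

theorem Lc_eq {c : ℝ} (hc : 0 < c) (x y : ℝ) : Lc c x y = 2 * c * Kr c y x := by
  unfold Lc Kr
  rw [show y + x - c = x + y - c by ring]
  field_simp
  ring

theorem QL_Kc {c : ℝ} (hc : 0 < c) (F0 : ℂ × ℂ) : QL (fun F => Kc c ‖F.1‖ ‖F.2‖) F0 := by
  have h1 := Pool.Agent.W360.MQ.All.ker Pool.Agent.W360.MQ.Fin.qkb c hc
  have ck : Continuous (fun F : ℂ × ℂ => Kr c ‖F.1‖ ‖F.2‖) := by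
    unfold Kr
    fun_prop
  have ck' : Continuous (fun F : ℂ × ℂ => Kr c ‖F.2‖ ‖F.1‖) := by
    unfold Kr
    fun_prop
  have h2 := QL_swap (k := Kr c) (F0 := F0) (QL_of_QA ck h1 _)
  have h3 := QL_smul (c := 2 * c) (by positivity) h2
  have h4 := QL_add (by fun_prop) (by fun_prop) (QL_const (c ^ 2) F0) (QL_det 1 F0)
  have h5 := QL_add (by fun_prop) (by fun_prop) h4 h3
  have e : (fun F : ℂ × ℂ => Kc c ‖F.1‖ ‖F.2‖)
      = fun F => c ^ 2 + 1 * (‖F.1‖ ^ 2 - ‖F.2‖ ^ 2) + 2 * c * Kr c ‖F.2‖ ‖F.1‖ := by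
    ext F
    rw [Kc_eq (norm_nonneg _) (norm_nonneg _), Lc_eq hc]
    ring
  rw [e]
  exact h5

/-- the corner kernels are quasiconvex -/
theorem QL_corner {c m : ℝ} (hc : 0 < c) (hm : 0 ≤ m) (F0 : ℂ × ℂ) :
    QL (fun F => Kc c ‖F.1‖ (m - ‖F.2‖)) F0 := by
  obtain ⟨b, hb, hb2⟩ : ∃ b : ℂ, ‖b‖ = 1 ∧ F0.2 = (‖F0.2‖ : ℂ) * b := by
    by_cases h : F0.2 = 0
    · exact ⟨1, norm_one, by rw [h]; simp⟩
    · have h1 : (‖F0.2‖ : ℂ) ≠ 0 := by simpa using h
      refine ⟨F0.2 / ‖F0.2‖, ?_, ?_⟩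
      · rw [norm_div, Complex.norm_real, norm_norm]
        exact div_self (by simpa using h)
      · field_simp
  have hk := QL_shift (w := fun F : ℂ × ℂ => Kc c ‖F.1‖ ‖F.2‖) (F0 := F0)
    (F1 := (F0.1, F0.2 - (m : ℂ) * b)) (QL_Kc hc _)
  have e : ∀ F : ℂ × ℂ, F + ((F0.1, F0.2 - (m : ℂ) * b) - F0) = (F.1, F.2 - (m : ℂ) * b) := by
    intro F
    ext1
    · simp
    · simp only [Prod.snd_add, Prod.snd_sub]; ring
  simp only [e] at hk
  have cK : Continuous (fun z : ℝ × ℝ => Kc c z.1 z.2) := by unfold Kc; fun_prop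
  refine QL_ge ?_ ?_ hk ?_ ?_
  · exact cK.comp (f := fun F : ℂ × ℂ => (‖F.1‖, m - ‖F.2‖)) (by fun_prop)
  · exact cK.comp (f := fun F : ℂ × ℂ => (‖F.1‖, ‖F.2 - (m : ℂ) * b‖)) (by fun_prop)
  · intro F
    rw [← Kc_even c ‖F.1‖ (m - ‖F.2‖)]
    apply Kc_anti (abs_nonneg _)
    have h1 := abs_norm_sub_norm_le ((m : ℂ) * b) F.2
    rw [norm_mul, hb, mul_one, Complex.norm_real, Real.norm_of_nonneg hm, norm_sub_rev] at h1
    exact h1
  · rw [← Kc_even c ‖F0.1‖ (m - ‖F0.2‖)]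
    have h1 : F0.2 - (m : ℂ) * b = ((‖F0.2‖ - m : ℝ) : ℂ) * b := by
      conv_lhs => rw [hb2]
      push_cast
      ring
    rw [h1, norm_mul, hb, mul_one, Complex.norm_real, Real.norm_eq_abs, abs_sub_comm]

/-- the corner kernels in the variables `s, v` -/
noncomputable def KK (R r : ℝ) (F : ℂ × ℂ) : ℝ :=
  max (R - (‖F.1‖ + ‖F.2‖)) 0 * max (r - (‖F.1‖ - ‖F.2‖)) 0 + (R + r) * ‖F.1‖

theorem KK_eq {R r x y : ℝ} :
    max (R - (x + y)) 0 * max (r - (x - y)) 0 + (R + r) * x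
      = Kc ((R + r) / 2) x ((R - r) / 2 - y) := by
  unfold Kc
  obtain ⟨A, hA⟩ : ∃ A, A = R - (x + y) := ⟨_, rfl⟩
  obtain ⟨B, hB⟩ : ∃ B, B = r - (x - y) := ⟨_, rfl⟩
  have e1 : (R + r) / 2 - x = (A + B) / 2 := by rw [hA, hB]; ring
  have e2 : (R - r) / 2 - y = (A - B) / 2 := by rw [hA, hB]; ring
  have e3 : 2 * ((R + r) / 2) * x = (R + r) * x := by ring
  rw [← hA, ← hB, e1, e2, e3]
  have key : max A 0 * max B 0 = max (max ((A + B) / 2) 0 ^ 2 - ((A - B) / 2) ^ 2) 0 := by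
    rcases le_total A 0 with h | h
    · rw [max_eq_right h, zero_mul]
      symm
      apply max_eq_right
      rcases le_total (A + B) 0 with h2 | h2
      · rw [max_eq_right (by linarith)]
        nlinarith [sq_nonneg ((A - B) / 2)]
      · rw [max_eq_left (by linarith)]
        nlinarith
    · rcases le_total B 0 with h1 | h1
      · rw [max_eq_right h1, mul_zero]
        symm
        apply max_eq_right
        rcases le_total (A + B) 0 with h2 | h2
        · rw [max_eq_right (by linarith)]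
          nlinarith [sq_nonneg ((A - B) / 2)]
        · rw [max_eq_left (by linarith)]
          nlinarith
      · have g1 : max ((A + B) / 2) 0 = (A + B) / 2 := max_eq_left (by linarith)
        have g2 : 0 ≤ ((A + B) / 2) ^ 2 - ((A - B) / 2) ^ 2 := by
          have : 0 ≤ A * B := mul_nonneg h h1
          linarith [show ((A + B) / 2) ^ 2 - ((A - B) / 2) ^ 2 = A * B by ring]
        rw [max_eq_left h, max_eq_left h1, g1, max_eq_left g2]
        ring
  rw [key]
  ring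

theorem QL_KK {R r : ℝ} (h1 : -R < r) (h2 : r ≤ R) (F0 : ℂ × ℂ) : QL (KK R r) F0 := by
  have h := QL_corner (c := (R + r) / 2) (m := (R - r) / 2) (by linarith) (by linarith) F0
  have e : KK R r = fun F : ℂ × ℂ => Kc ((R + r) / 2) ‖F.1‖ ((R - r) / 2 - ‖F.2‖) := by
    ext F
    exact KK_eq
  rw [e]
  exact h

theorem cont_KK : Continuous (fun z : ℝ × ℝ × (ℂ × ℂ) => KK z.1 z.2.1 z.2.2) := by
  unfold KK
  fun_prop

open Pool.Agent.W918.MQ (DD DD_cont DD_zero LL) in
/-- integrals of functions which are quasiconvex at a point -/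
theorem QL_integral {k : ℝ → ℂ × ℂ → ℝ} {a b : ℝ} (hab : a ≤ b) (F0 : ℂ × ℂ)
    (hmeas : Measurable (fun z : ℝ × (ℂ × ℂ) => k z.1 z.2))
    (hbd : ∀ T : ℝ, ∃ M : ℝ, ∀ R F, ‖F.1‖ + ‖F.2‖ ≤ T → |k R F| ≤ M)
    (hq : ∀ R, QL (k R) F0) : QL (fun F => ∫ R in a..b, k R F) F0 := by
  intro f ⟨K, hf⟩ hc
  obtain ⟨M, hM⟩ := hbd (‖F0.1‖ + ‖F0.2‖ + 2 * K)
  have hF0 : ∀ R, |k R F0| ≤ M := fun R => hM R F0 (by
    have := K.2
    linarith [NNReal.coe_nonneg K])
  have hFz : ∀ R z, |k R (F0 + (dz f z, dzb f z))| ≤ M := fun R z => hM R _ (by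
    have e1 := norm_add_le F0.1 (dz f z)
    have e2 := norm_add_le F0.2 (dzb f z)
    have e3 := dz_bd hf z
    have e4 := dzb_bd hf z
    simp only [Prod.fst_add, Prod.snd_add]
    linarith)
  have hg : Measurable (fun z : ℂ => F0 + (dz f z, dzb f z)) := by
    have h1 : (fun z : ℂ => F0 + (dz f z, dzb f z)) = fun z => F0 + DD (fderiv ℝ f z) := rfl
    rw [h1]
    exact (continuous_const.add DD_cont).measurable.comp (measurable_fderiv ℝ f)
  have hmk : ∀ F, Measurable (fun R => k R F) := fun F => hmeas.comp (measurable_id.prodMk measurable_const)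
  have hik : ∀ F, (∃ M, ∀ R, |k R F| ≤ M) → IntervalIntegrable (fun R => k R F) volume a b := by
    rintro F ⟨M', hM'⟩
    rw [intervalIntegrable_iff_integrableOn_Ioc_of_le hab]
    exact Integrable.of_bound (hmk F).aestronglyMeasurable M' (Eventually.of_forall hM')
  have e0 : ∀ z, (∫ R in a..b, k R (F0 + (dz f z, dzb f z))) - ∫ R in a..b, k R F0
      = ∫ R in a..b, (k R (F0 + (dz f z, dzb f z)) - k R F0) := fun z =>
    (intervalIntegral.integral_sub (hik _ ⟨M, fun R => hFz R z⟩) (hik _ ⟨M, hF0⟩)).symm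
  simp only [e0]
  have hoff : ∀ z, z ∉ tsupport f → ∫ R in a..b, (k R (F0 + (dz f z, dzb f z)) - k R F0) = 0 := by
    intro z hz
    rw [off_supp hz]
    simp
  rw [← setIntegral_eq_integral_of_forall_compl_eq_zero hoff]
  simp only [intervalIntegral.integral_of_le hab]
  have : IsFiniteMeasure (volume.restrict (tsupport f)) :=
    ⟨by rw [Measure.restrict_apply_univ]; exact hc.isCompact.measure_lt_top⟩
  have : IsFiniteMeasure (volume.restrict (Ioc a b)) :=
    ⟨by rw [Measure.restrict_apply_univ]; exact measure_Ioc_lt_top⟩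
  have hsw : Integrable (Function.uncurry fun (z : ℂ) (R : ℝ) =>
      k R (F0 + (dz f z, dzb f z)) - k R F0)
      ((volume.restrict (tsupport f)).prod (volume.restrict (Ioc a b))) := by
    refine Integrable.of_bound (C := M + M) ?_ (Eventually.of_forall ?_)
    · apply Measurable.aestronglyMeasurable
      apply Measurable.sub
      · exact hmeas.comp (measurable_snd.prodMk (hg.comp measurable_fst))
      · exact (hmk F0).comp measurable_snd
    · rintro ⟨z, R⟩
      simp only [Function.uncurry]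
      rw [Real.norm_eq_abs]
      exact (abs_sub _ _).trans (add_le_add (hFz R z) (hF0 R))
  rw [integral_integral_swap hsw]
  refine integral_nonneg fun R => ?_
  simp only [Pi.zero_apply]
  have h1 := hq R f ⟨K, hf⟩ hc
  rwa [← setIntegral_eq_integral_of_forall_compl_eq_zero (s := tsupport f)] at h1
  intro z hz
  rw [off_supp hz]
  simp

end Pool.Agent.Y332.MD
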