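import Pool.Agent.Y332.MD.Mk

/-!
# The theorem on matrices, with the mirrored class
-/

set_option autoImplicit false

namespace Pool.Agent.Y332.MD

open MeasureTheory Set Filter Topology Metric
open scoped ComplexConjugate
open Pool.Agent.TH937.ZC
open Pool.Agent.W360.MQ (cab RankOneConvex Quasiconvex)

theorem RCc_swap {Ψ : ℝ → ℝ → ℝ} (h : RCc (wi Ψ)) : RCc (wi (fun s v => Ψ s (-v))) := by
  intro F H hH t h0 h1
  have h2 := h (F.2, F.1) (H.2, H.1) hH.symm t h0 h1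
  have e : ∀ F : ℂ × ℂ, wi (fun s v => Ψ s (-v)) F = wi Ψ (F.2, F.1) := by
    intro F
    simp only [wi]
    rw [add_comm ‖F.1‖ ‖F.2‖, neg_sub]
  rw [e, e, e]
  exact h2

theorem d2_neg {Ψ : ℝ → ℝ → ℝ} (s v : ℝ) :
    d2 (fun s v => Ψ s (-v)) s v = -(d2 Ψ s (-v)) := by
  unfold d2
  exact deriv_comp_neg (fun t => Ψ s t) v

theorem d12_neg {Ψ : ℝ → ℝ → ℝ} (s v : ℝ) :
    d1 (d2 (fun s v => Ψ s (-v))) s v = -(d1 (d2 Ψ) s (-v)) := by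
  have : (fun t => d2 (fun s v => Ψ s (-v)) t v) = fun t => -(d2 Ψ t (-v)) := by
    funext t; exact d2_neg t v
  unfold d1
  rw [this]
  exact deriv.fun_neg

theorem d112_neg {Ψ : ℝ → ℝ → ℝ} (s v : ℝ) :
    d1 (d1 (d2 (fun s v => Ψ s (-v)))) s v = -(d1 (d1 (d2 Ψ)) s (-v)) := by
  have : (fun t => d1 (d2 (fun s v => Ψ s (-v))) t v) = fun t => -(d1 (d2 Ψ) t (-v)) := by
    funext t; exact d12_neg t v
  rw [d1, this]
  exact deriv.fun_neg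

theorem d212_neg {Ψ : ℝ → ℝ → ℝ} (s v : ℝ) :
    d2 (d1 (d2 (fun s v => Ψ s (-v)))) s v = d2 (d1 (d2 Ψ)) s (-v) := by
  have : (fun t => d1 (d2 (fun s v => Ψ s (-v))) s t) = fun t => -(d1 (d2 Ψ) s (-t)) := by
    funext t; exact d12_neg s t
  rw [d2, this, deriv.fun_neg, deriv_comp_neg (fun t => d1 (d2 Ψ) s t) v, neg_neg]
  rfl

theorem QL_all {Ψ : ℝ → ℝ → ℝ} (h : ContDiff ℝ 3 (un Ψ))
    (H1 : (∀ s v, |v| < s → d1 (d1 (d2 Ψ)) s v ≤ 0) ∨ (∀ s v, |v| < s → 0 ≤ d1 (d1 (d2 Ψ)) s v))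
    (H2 : ∀ s v, |v| < s → d2 (d1 (d2 Ψ)) s v ≤ 0)
    (hR : RCc (wi Ψ)) (F0 : ℂ × ℂ) : QL (wi Ψ) F0 := by
  rcases H1 with H1 | H1
  · exact (mkCo h hR H1 H2).ql_all h.continuous F0
  · have h' : ContDiff ℝ 3 (un (fun s v => Ψ s (-v))) := by
      have e : un (fun s v => Ψ s (-v)) = (un Ψ) ∘ (fun z : ℝ × ℝ => (z.1, -z.2)) := rfl
      rw [e]
      exact h.comp (contDiff_fst.prodMk contDiff_snd.neg)
    have H1' : ∀ s v, |v| < s → d1 (d1 (d2 (fun s v => Ψ s (-v)))) s v ≤ 0 := by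
      intro s v hv
      rw [d112_neg]
      have := H1 s (-v) (by rwa [abs_neg])
      linarith
    have H2' : ∀ s v, |v| < s → d2 (d1 (d2 (fun s v => Ψ s (-v)))) s v ≤ 0 := by
      intro s v hv
      rw [d212_neg]
      exact H2 s (-v) (by rwa [abs_neg])
    have h1 := (mkCo h' (RCc_swap hR) H1' H2').ql_all h'.continuous (conj F0.2, conj F0.1)
    have h2 := QL_swap (k := fun x y => Ψ (x + y) (-(x - y))) h1
    have e : (fun F : ℂ × ℂ => Ψ (‖F.2‖ + ‖F.1‖) (-(‖F.2‖ - ‖F.1‖))) = wi Ψ := by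
      funext F
      simp only [wi]
      rw [add_comm ‖F.2‖ ‖F.1‖, neg_sub]
    rw [← e]
    exact h2

open scoped Matrix.Norms.L2Operator in
theorem main (Ψ : ℝ → ℝ → ℝ) (W : Matrix (Fin 2) (Fin 2) ℝ → ℝ)
    (hW : ∀ A : Matrix (Fin 2) (Fin 2) ℝ, W A = Ψ ‖A‖ (A.det / ‖A‖))
    (h : ContDiff ℝ 3 (un Ψ))
    (H1 : (∀ s v, |v| < s → d1 (d1 (d2 Ψ)) s v ≤ 0) ∨ (∀ s v, |v| < s → 0 ≤ d1 (d1 (d2 Ψ)) s v))
    (H2 : ∀ s v, |v| < s → d2 (d1 (d2 Ψ)) s v ≤ 0)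
    (hR : RankOneConvex W) : Quasiconvex W := by
  have e : W = fun A => wi Ψ (cab A) := by
    funext A
    obtain ⟨h1, h2⟩ := Pool.Agent.TH937.FF4.nv_eq A
    rw [hW A, h2, h1]
    rfl
  rw [e] at hR ⊢
  exact QL_om (cont_wi h.continuous) (fun F0 => QL_all h H1 H2 (RCc_of hR) F0)

end Pool.Agent.Y332.MD
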