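import Pool.Agent.Y332.MD.Smooth

/-!
# The hypotheses of the support theorem hold for smooth rank-one convex functions
-/

set_option autoImplicit false

namespace Pool.Agent.Y332.MD

open MeasureTheory Set Filter Topology Metric
open scoped ComplexConjugate
open Pool.Agent.TH937.ZC

theorem nonneg_of_min {φ : ℝ → ℝ} {c : ℝ} (h : HasDerivAt φ c 0) (h0 : ∀ y, 0 ≤ y → φ 0 ≤ φ y) :
    0 ≤ c := by
  have h1 := h.tendsto_slope_zero_right
  refine ge_of_tendsto h1 ?_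
  filter_upwards [self_mem_nhdsWithin] with t ht
  have ht' : (0 : ℝ) < t := ht
  have := h0 t ht'.le
  rw [zero_add, smul_eq_mul]
  exact mul_nonneg (inv_nonneg.2 ht'.le) (by linarith)

theorem sq_der {s : ℝ} (hs : 0 < s) : HasDerivAt (fun y : ℝ => √(s ^ 2 + y ^ 2)) 0 0 := by
  have h1 : HasDerivAt (fun y : ℝ => s ^ 2 + y ^ 2) (0 : ℝ) (0 : ℝ) := by
    have := ((hasDerivAt_id (0 : ℝ)).pow 2).const_add (s ^ 2)
    simpa using this
  have h2 := h1.sqrt (by positivity)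
  simpa using h2

theorem comp_der {Ψ : ℝ → ℝ → ℝ} (h : Differentiable ℝ (un Ψ)) {a b : ℝ → ℝ} {a' b' : ℝ}
    (ha : HasDerivAt a a' 0) (hb : HasDerivAt b b' 0) :
    HasDerivAt (fun y => Ψ (a y) (b y)) (a' * d1 Ψ (a 0) (b 0) + b' * d2 Ψ (a 0) (b 0)) 0 := by
  have h1 := (h (a 0, b 0)).hasFDerivAt.comp_hasDerivAt (0 : ℝ) (ha.prodMk hb)
  have e : ((a', b') : ℝ × ℝ) = a' • ((1, 0) : ℝ × ℝ) + b' • ((0, 1) : ℝ × ℝ) := by
    ext1 <;> simp
  have e2 : fderiv ℝ (un Ψ) (a 0, b 0) (a', b')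
      = a' * d1 Ψ (a 0) (b 0) + b' * d2 Ψ (a 0) (b 0) := by
    rw [e, map_add, map_smul, map_smul, d1_eq h, d2_eq h]
    simp
  rw [e2] at h1
  exact h1

/-- the hypotheses of the support theorem -/
theorem mkCo {Ψ : ℝ → ℝ → ℝ} (h : ContDiff ℝ 3 (un Ψ)) (hR : RCc (wi Ψ))
    (H1 : ∀ s v, |v| < s → d1 (d1 (d2 Ψ)) s v ≤ 0)
    (H2 : ∀ s v, |v| < s → d2 (d1 (d2 Ψ)) s v ≤ 0) :
    Co Ψ (d1 Ψ) (d2 Ψ) (d1 (d2 Ψ)) (fun s v => -(d1 (d1 (d2 Ψ)) s v)) := by
  have hd : Differentiable ℝ (un Ψ) := h.differentiable (by norm_num)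
  have c1 : ContDiff ℝ 2 (un (d1 Ψ)) := cd1 (n := 2) h
  have c2 : ContDiff ℝ 2 (un (d2 Ψ)) := cd2 (n := 2) h
  have c12 : ContDiff ℝ 1 (un (d1 (d2 Ψ))) := cd1 (n := 1) c2
  have c112 : ContDiff ℝ 0 (un (d1 (d1 (d2 Ψ)))) := cd1 (n := 0) c12
  have hd1 : Differentiable ℝ (un (d1 Ψ)) := c1.differentiable (by norm_num)
  have hd2 : Differentiable ℝ (un (d2 Ψ)) := c2.differentiable (by norm_num)
  have hd12 : Differentiable ℝ (un (d1 (d2 Ψ))) := c12.differentiable (by norm_num)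
  have cw : Continuous (fun z : ℝ × ℝ => -(d1 (d1 (d2 Ψ)) z.1 z.2)) := (c112.continuous).neg
  constructor
  · exact fun s v => has1 hd s v
  · exact fun s v => has2 hd s v
  · intro s v
    rw [← swap12 (h.of_le (by norm_num)) s v]
    exact has2 hd1 s v
  · exact fun s v => has1 hd2 s v
  · intro s v
    simp only [neg_neg]
    exact has1 hd12 s v
  · exact c12.continuous
  · exact cw
  · intro s v hsv
    have hc : Continuous (fun t : ℝ => -(d1 (d1 (d2 Ψ)) t v)) :=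
      cw.comp (by fun_prop : Continuous fun t : ℝ => (t, v))
    have ht : Tendsto (fun t : ℝ => -(d1 (d1 (d2 Ψ)) t v)) (𝓝[>] s)
        (𝓝 (-(d1 (d1 (d2 Ψ)) s v))) := (hc.tendsto s).mono_left nhdsWithin_le_nhds
    refine ge_of_tendsto ht ?_
    filter_upwards [self_mem_nhdsWithin] with t ht
    have := H1 t v (lt_of_le_of_lt hsv ht)
    linarith
  · intro s v v' h1 h2 h3
    have hc : ContinuousOn (fun v => d1 (d2 Ψ) s v) (Icc (-s) s) :=
      (c12.continuous.comp (by fun_prop : Continuous fun v : ℝ => (s, v))).continuousOn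
    have ha : AntitoneOn (fun v => d1 (d2 Ψ) s v) (Icc (-s) s) := by
      refine antitoneOn_of_deriv_nonpos (convex_Icc _ _) hc ?_ ?_
      · intro x _
        exact (has2 hd12 s x).differentiableAt.differentiableWithinAt
      · intro x hx
        rw [interior_Icc] at hx
        exact H2 s x (abs_lt.2 hx)
    exact ha ⟨h1, h2.trans h3⟩ ⟨h1.trans h2, h3⟩ h2
  · intro v s s' h1 h2
    have hm := (convex_s hR v).monotoneOn_deriv (fun x _ => (has1 hd x v).differentiableAt)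
    exact hm (show s ∈ Ici |v| from h1) (show s' ∈ Ici |v| from h1.trans h2) h2
  · intro s v v' h1 h2 h3
    have hs : 0 ≤ s := by linarith
    have hm := (convex_v hR hs).monotoneOn_deriv (fun x _ => (has2 hd s x).differentiableAt)
    exact hm ⟨h1, h2.trans h3⟩ ⟨h1.trans h2, h3⟩ h2
  · intro s hs
    have hr := sq_der hs
    have h1 := comp_der hd (hr.add (hasDerivAt_id (0 : ℝ))) (hr.sub (hasDerivAt_id (0 : ℝ)))
    have h2 := nonneg_of_min h1 (fun y hy => by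
      have := bd_p hR hs.le hy
      simpa [Real.sqrt_sq hs.le] using this)
    simp [Real.sqrt_sq hs.le] at h2
    linarith
  · intro s hs
    have hr := sq_der hs
    have h1 := comp_der hd (hr.add (hasDerivAt_id (0 : ℝ))) (hr.sub (hasDerivAt_id (0 : ℝ))).neg
    have h2 := nonneg_of_min h1 (fun y hy => by
      have := bd_m hR hs.le hy
      simpa [Real.sqrt_sq hs.le] using this)
    simp [Real.sqrt_sq hs.le] at h2
    linarith

theorem cont_wi {Ψ : ℝ → ℝ → ℝ} (h : Continuous (un Ψ)) : Continuous (wi Ψ) := by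
  have : wi Ψ = fun F => un Ψ (‖F.1‖ + ‖F.2‖, ‖F.1‖ - ‖F.2‖) := rfl
  rw [this]
  exact h.comp (by fun_prop)

open Pool.Agent.W360.MQ (cab RankOneConvex Quasiconvex)

theorem main_of {Ψ : ℝ → ℝ → ℝ} (h : ContDiff ℝ 3 (un Ψ))
    (H1 : ∀ s v, |v| < s → d1 (d1 (d2 Ψ)) s v ≤ 0)
    (H2 : ∀ s v, |v| < s → d2 (d1 (d2 Ψ)) s v ≤ 0)
    (hR : RankOneConvex (fun A => wi Ψ (cab A))) : Quasiconvex (fun A => wi Ψ (cab A)) :=
  QL_om (cont_wi h.continuous) (fun F0 => (mkCo h (RCc_of hR) H1 H2).ql_all h.continuous F0)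

end Pool.Agent.Y332.MD
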