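import Mathlib

/-!
# Elementary lemmas: monotonicity from increments, the coupling function
-/

set_option autoImplicit false

namespace Pool.Agent.Y332.MD

open MeasureTheory Set Filter Topology intervalIntegral

/-- if the increments of `f` are at least `-C (y - x) (ρ y - ρ x)` with `ρ` monotone then `f` is
nondecreasing -/
theorem mono_small {f ρ : ℝ → ℝ} {a b C : ℝ} (hab : a ≤ b) 
    (h : ∀ x ∈ Icc a b, ∀ y ∈ Icc a b, x ≤ y → -(C * (y - x) * (ρ y - ρ x)) ≤ f y - f x) :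
    f a ≤ f b := by
  have key : ∀ n : ℕ, 0 < n → -(C * ((b - a) / n) * (ρ b - ρ a)) ≤ f b - f a := by
    intro n hn
    have hn' : (0 : ℝ) < n := Nat.cast_pos.2 hn
    obtain ⟨x, hx⟩ : ∃ x : ℕ → ℝ, x = fun i : ℕ => a + i * ((b - a) / n) := ⟨_, rfl⟩
    have h0 : x 0 = a := by rw [hx]; simp
    have h1 : x n = b := by rw [hx]; field_simp; ring
    have hd : 0 ≤ (b - a) / n := div_nonneg (by linarith) hn'.le
    have hs : ∀ i, x (i + 1) - x i = (b - a) / n := by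
      intro i; rw [hx]; push_cast; ring
    have hmem : ∀ i ≤ n, x i ∈ Icc a b := by
      intro i hi
      have hi' : (i : ℝ) ≤ n := Nat.cast_le.2 hi
      constructor
      · rw [hx]; simp only; nlinarith [Nat.cast_nonneg (α := ℝ) i]
      · have : (i : ℝ) * ((b - a) / n) ≤ n * ((b - a) / n) := mul_le_mul_of_nonneg_right hi' hd
        have e : (n : ℝ) * ((b - a) / n) = b - a := by field_simp
        rw [hx]; simp only; linarith
    have hf := Finset.sum_range_sub (fun i => f (x i)) n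
    have hr := Finset.sum_range_sub (fun i => ρ (x i)) n
    simp only [h0, h1] at hf hr
    rw [← hf, ← hr, Finset.mul_sum, ← Finset.sum_neg_distrib]
    apply Finset.sum_le_sum
    intro i hi
    have hi' := Finset.mem_range.1 hi
    have := h (x i) (hmem i hi'.le) (x (i + 1)) (hmem (i + 1) hi') (by linarith [hs i])
    rw [hs i] at this
    exact this
  have hlim : Tendsto (fun n : ℕ => -(C * ((b - a) / n) * (ρ b - ρ a))) atTop (𝓝 0) := by
    have h1 : Tendsto (fun n : ℕ => (b - a) / (n : ℝ)) atTop (𝓝 0) :=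
      tendsto_const_div_atTop_nhds_zero_nat (b - a)
    have h2 := ((h1.const_mul C).mul_const (ρ b - ρ a)).neg
    simpa using h2
  have := le_of_tendsto' (b := f b - f a) (hlim.comp (tendsto_add_atTop_nat 1))
    (fun n => key (n + 1) (Nat.succ_pos n))
  linarith

/-- the hypotheses on the function `Ψ(s, v)`; `p, q, m, -w` are the derivatives
`Ψ_s, Ψ_v, Ψ_sv, Ψ_ssv` -/
structure Co (Ψ p q m w : ℝ → ℝ → ℝ) : Prop where
  ds : ∀ s v, HasDerivAt (fun s => Ψ s v) (p s v) s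
  dv : ∀ s v, HasDerivAt (fun v => Ψ s v) (q s v) v
  pv : ∀ s v, HasDerivAt (fun v => p s v) (m s v) v
  qs : ∀ s v, HasDerivAt (fun s => q s v) (m s v) s
  ms : ∀ s v, HasDerivAt (fun s => m s v) (-(w s v)) s
  cm : Continuous (fun z : ℝ × ℝ => m z.1 z.2)
  cw : Continuous (fun z : ℝ × ℝ => w z.1 z.2)
  w0 : ∀ s v, |v| ≤ s → 0 ≤ w s v
  M2 : ∀ s v v', -s ≤ v → v ≤ v' → v' ≤ s → m s v' ≤ m s v
  C1 : ∀ v s s', |v| ≤ s → s ≤ s' → p s v ≤ p s' v
  C2 : ∀ s v v', -s ≤ v → v ≤ v' → v' ≤ s → q s v ≤ q s v'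
  Bp : ∀ s, 0 < s → q s s ≤ p s s
  Bm : ∀ s, 0 < s → 0 ≤ p s (-s) + q s (-s)

/-- the coupling function -/
noncomputable def rr (m : ℝ → ℝ → ℝ) (s0 v0 R : ℝ) : ℝ :=
  sSup {τ | v0 ≤ τ ∧ τ ≤ R ∧ m R v0 ≤ m (max s0 τ) τ}

namespace Co

variable {Ψ p q m w : ℝ → ℝ → ℝ} (D : Co Ψ p q m w) {s0 v0 : ℝ}

section
include D

theorem cms (v : ℝ) : Continuous (fun s => m s v) := D.cm.comp (by fun_prop : Continuous fun s => (s, v))

theorem cmv (s : ℝ) : Continuous (fun v => m s v) := D.cm.comp (by fun_prop : Continuous fun v => (s, v))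

theorem cws (v : ℝ) : Continuous (fun s => w s v) := D.cw.comp (by fun_prop : Continuous fun s => (s, v))

theorem int_w (v x y : ℝ) : ∫ R in x..y, w R v = m x v - m y v := by
  have h := integral_eq_sub_of_hasDerivAt (f := fun R => -(m R v)) (f' := fun R => w R v)
    (a := x) (b := y) (fun R _ => by
      have h := (D.ms R v).neg
      rw [neg_neg] at h
      exact h)
    ((D.cws v).intervalIntegrable x y)
  rw [h]; ring

theorem int_ms (v x y : ℝ) : ∫ s in x..y, m s v = q y v - q x v :=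
  integral_eq_sub_of_hasDerivAt (fun s _ => D.qs s v) ((D.cms v).intervalIntegrable x y)

theorem int_mv (s x y : ℝ) : ∫ v in x..y, m s v = p s y - p s x :=
  integral_eq_sub_of_hasDerivAt (fun v _ => D.pv s v) ((D.cmv s).intervalIntegrable x y)

theorem M1 (v s s' : ℝ) (h : |v| ≤ s) (h' : s ≤ s') : m s' v ≤ m s v := by
  have h1 := D.int_w v s s'
  have h2 : 0 ≤ ∫ R in s..s', w R v :=
    integral_nonneg h' fun R hR => D.w0 R v (h.trans hR.1)
  linarith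

theorem e_anti (h0 : |v0| < s0) {τ τ' : ℝ} (h : v0 ≤ τ) (h' : τ ≤ τ') :
    m (max s0 τ') τ' ≤ m (max s0 τ) τ := by
  have hv := abs_lt.1 h0
  have h1 : |τ| ≤ max s0 τ := by
    rw [abs_le]
    constructor
    · have := le_max_left s0 τ; linarith
    · exact le_max_right _ _
  have h2 : max s0 τ ≤ max s0 τ' := max_le_max le_rfl h'
  have h3 := D.M2 (max s0 τ') τ τ' (by have := le_max_left s0 τ'; linarith) h' (le_max_right _ _)
  exact h3.trans (D.M1 τ _ _ h1 h2)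

theorem v0_mem (h0 : |v0| < s0) {R : ℝ} (hR : s0 ≤ R) :
    v0 ∈ {τ | v0 ≤ τ ∧ τ ≤ R ∧ m R v0 ≤ m (max s0 τ) τ} := by
  have hv := abs_lt.1 h0
  refine ⟨le_rfl, by linarith, ?_⟩
  rw [max_eq_left (by linarith : v0 ≤ s0)]
  exact D.M1 v0 s0 R h0.le hR

theorem rr_ge (h0 : |v0| < s0) {R : ℝ} (hR : s0 ≤ R) : v0 ≤ rr m s0 v0 R :=
  le_csSup ⟨R, fun _ h => h.2.1⟩ (D.v0_mem h0 hR)

theorem rr_le (h0 : |v0| < s0) {R : ℝ} (hR : s0 ≤ R) : rr m s0 v0 R ≤ R :=
  csSup_le ⟨v0, D.v0_mem h0 hR⟩ fun _ h => h.2.1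

theorem rr_lt (h0 : |v0| < s0) {R τ : ℝ} (hR : s0 ≤ R) (h : rr m s0 v0 R < τ) (h' : τ ≤ R) :
    m (max s0 τ) τ < m R v0 := by
  by_contra hc
  have := le_csSup (s := {τ | v0 ≤ τ ∧ τ ≤ R ∧ m R v0 ≤ m (max s0 τ) τ}) ⟨R, fun _ h => h.2.1⟩
    ⟨(D.rr_ge h0 hR).trans h.le, h', not_lt.1 hc⟩
  exact absurd this (not_le.2 h)

theorem rr_gt (h0 : |v0| < s0) {R τ : ℝ} (hR : s0 ≤ R) (h : τ < rr m s0 v0 R) (h' : v0 ≤ τ) :
    m R v0 ≤ m (max s0 τ) τ := by
  obtain ⟨τ', h1, h2⟩ := exists_lt_of_lt_csSup ⟨v0, D.v0_mem h0 hR⟩ h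
  exact h1.2.2.trans (D.e_anti h0 h' h2.le)

theorem rr_mono (h0 : |v0| < s0) {R R' : ℝ} (hR : s0 ≤ R) (h : R ≤ R') :
    rr m s0 v0 R ≤ rr m s0 v0 R' := by
  apply csSup_le_csSup ⟨R', fun _ h => h.2.1⟩ ⟨v0, D.v0_mem h0 hR⟩
  intro τ hτ
  have hv := abs_lt.1 h0
  exact ⟨hτ.1, hτ.2.1.trans h, (D.M1 v0 R R' (by rw [abs_le]; constructor <;> linarith) h).trans hτ.2.2⟩

theorem rr_monoOn (h0 : |v0| < s0) : MonotoneOn (rr m s0 v0) (Ici s0) :=
  fun _ hx _ _ hxy => D.rr_mono h0 hx hxy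

end

end Co

end Pool.Agent.Y332.MD
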