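import Pool.Agent.Y332.MD.Fin
import Pool.Agent.TH937.ZC.Roc

/-!
# Consequences of rank-one convexity
-/

set_option autoImplicit false

namespace Pool.Agent.Y332.MD

open MeasureTheory Set Filter Topology Metric
open scoped ComplexConjugate
open Pool.Agent.TH937.ZC

/-- the function of the matrix, in the variables `(u_z, u_zbar)` -/
noncomputable def wi (Ψ : ℝ → ℝ → ℝ) (F : ℂ × ℂ) : ℝ := Ψ (‖F.1‖ + ‖F.2‖) (‖F.1‖ - ‖F.2‖)

theorem wi_real {Ψ : ℝ → ℝ → ℝ} {x y : ℝ} (hx : 0 ≤ x) (hy : 0 ≤ y) :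
    wi Ψ ((x : ℂ), (y : ℂ)) = Ψ (x + y) (x - y) := by
  unfold wi
  simp only
  rw [Complex.norm_real, Complex.norm_real, Real.norm_of_nonneg hx, Real.norm_of_nonneg hy]

/-- convexity in the first variable -/
theorem convex_s {Ψ : ℝ → ℝ → ℝ} (h : RCc (wi Ψ)) (v : ℝ) :
    ConvexOn ℝ (Ici |v|) (fun s => Ψ s v) := by
  refine ⟨convex_Ici _, fun x hx y hy a b ha hb hab => ?_⟩
  have hx1 := abs_le.1 (show |v| ≤ x from hx)
  have hy1 := abs_le.1 (show |v| ≤ y from hy)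
  have h1 := h ((((x + v) / 2 : ℝ) : ℂ), (((x - v) / 2 : ℝ) : ℂ))
    ((((y - x) / 2 : ℝ) : ℂ), (((y - x) / 2 : ℝ) : ℂ)) rfl b hb (by linarith)
  have e1 : ((((x + v) / 2 : ℝ) : ℂ), (((x - v) / 2 : ℝ) : ℂ))
      + b • ((((y - x) / 2 : ℝ) : ℂ), (((y - x) / 2 : ℝ) : ℂ))
      = ((((x + b * (y - x) + v) / 2 : ℝ) : ℂ), (((x + b * (y - x) - v) / 2 : ℝ) : ℂ)) := by
    ext1
    · simp only [Prod.fst_add, Prod.smul_fst, Complex.real_smul]; push_cast; ring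
    · simp only [Prod.snd_add, Prod.smul_snd, Complex.real_smul]; push_cast; ring
  have e2 : ((((x + v) / 2 : ℝ) : ℂ), (((x - v) / 2 : ℝ) : ℂ))
      + ((((y - x) / 2 : ℝ) : ℂ), (((y - x) / 2 : ℝ) : ℂ))
      = ((((y + v) / 2 : ℝ) : ℂ), (((y - v) / 2 : ℝ) : ℂ)) := by
    ext1
    · simp only [Prod.fst_add]; push_cast; ring
    · simp only [Prod.snd_add]; push_cast; ring
  have hc : b * (y - x) ≤ 0 ∨ 0 ≤ b * (y - x) := le_total _ _
  have hz : |v| ≤ x + b * (y - x) := by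
    have : x + b * (y - x) = a * x + b * y := by rw [show a = 1 - b by linarith]; ring
    rw [this]
    have h5 : |v| = a * |v| + b * |v| := by rw [← add_mul, hab, one_mul]
    rw [h5]
    exact add_le_add (mul_le_mul_of_nonneg_left hx ha) (mul_le_mul_of_nonneg_left hy hb)
  have hz1 := abs_le.1 hz
  rw [e1, e2, wi_real (by linarith) (by linarith), wi_real (by linarith) (by linarith),
    wi_real (by linarith) (by linarith)] at h1
  have f1 : (x + b * (y - x) + v) / 2 + (x + b * (y - x) - v) / 2 = a * x + b * y := by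
    rw [show a = 1 - b by linarith]; ring
  have f2 : (x + b * (y - x) + v) / 2 - (x + b * (y - x) - v) / 2 = v := by ring
  have f3 : (x + v) / 2 + (x - v) / 2 = x := by ring
  have f4 : (x + v) / 2 - (x - v) / 2 = v := by ring
  have f5 : (y + v) / 2 + (y - v) / 2 = y := by ring
  have f6 : (y + v) / 2 - (y - v) / 2 = v := by ring
  rw [f1, f2, f3, f4, f5, f6] at h1
  simp only [smul_eq_mul]
  rw [show a = 1 - b by linarith] at h1 ⊢
  exact h1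

/-- convexity in the second variable -/
theorem convex_v {Ψ : ℝ → ℝ → ℝ} (h : RCc (wi Ψ)) {s : ℝ} (hs : 0 ≤ s) :
    ConvexOn ℝ (Icc (-s) s) (fun v => Ψ s v) := by
  refine ⟨convex_Icc _ _, fun x hx y hy a b ha hb hab => ?_⟩
  have h1 := h ((((s + x) / 2 : ℝ) : ℂ), (((s - x) / 2 : ℝ) : ℂ))
    ((((y - x) / 2 : ℝ) : ℂ), ((-((y - x) / 2) : ℝ) : ℂ)) (by
      simp only
      rw [Complex.norm_real, Complex.norm_real, norm_neg]) b hb (by linarith)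
  have e1 : ((((s + x) / 2 : ℝ) : ℂ), (((s - x) / 2 : ℝ) : ℂ))
      + b • ((((y - x) / 2 : ℝ) : ℂ), ((-((y - x) / 2) : ℝ) : ℂ))
      = ((((s + (x + b * (y - x))) / 2 : ℝ) : ℂ), (((s - (x + b * (y - x))) / 2 : ℝ) : ℂ)) := by
    ext1
    · simp only [Prod.fst_add, Prod.smul_fst, Complex.real_smul]; push_cast; ring
    · simp only [Prod.snd_add, Prod.smul_snd, Complex.real_smul]; push_cast; ring
  have e2 : ((((s + x) / 2 : ℝ) : ℂ), (((s - x) / 2 : ℝ) : ℂ))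
      + ((((y - x) / 2 : ℝ) : ℂ), ((-((y - x) / 2) : ℝ) : ℂ))
      = ((((s + y) / 2 : ℝ) : ℂ), (((s - y) / 2 : ℝ) : ℂ)) := by
    ext1
    · simp only [Prod.fst_add]; push_cast; ring
    · simp only [Prod.snd_add]; push_cast; ring
  have hz : x + b * (y - x) = a * x + b * y := by rw [show a = 1 - b by linarith]; ring
  have hz1 : -s ≤ x + b * (y - x) := by
    rw [hz]
    have h5 : -s = a * (-s) + b * (-s) := by rw [← add_mul, hab, one_mul]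
    rw [h5]
    exact add_le_add (mul_le_mul_of_nonneg_left hx.1 ha) (mul_le_mul_of_nonneg_left hy.1 hb)
  have hz2 : x + b * (y - x) ≤ s := by
    rw [hz]
    have h5 : s = a * s + b * s := by rw [← add_mul, hab, one_mul]
    rw [h5]
    exact add_le_add (mul_le_mul_of_nonneg_left hx.2 ha) (mul_le_mul_of_nonneg_left hy.2 hb)
  rw [e1, e2, wi_real (by linarith) (by linarith),
    wi_real (by linarith [hx.1]) (by linarith [hx.2]),
    wi_real (by linarith [hy.1]) (by linarith [hy.2])] at h1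
  have f1 : (s + (x + b * (y - x))) / 2 + (s - (x + b * (y - x))) / 2 = s := by ring
  have f2 : (s + (x + b * (y - x))) / 2 - (s - (x + b * (y - x))) / 2 = a * x + b * y := by
    rw [show a = 1 - b by linarith]; ring
  have f3 : (s + x) / 2 + (s - x) / 2 = s := by ring
  have f4 : (s + x) / 2 - (s - x) / 2 = x := by ring
  have f5 : (s + y) / 2 + (s - y) / 2 = s := by ring
  have f6 : (s + y) / 2 - (s - y) / 2 = y := by ring
  rw [f1, f2, f3, f4, f5, f6] at h1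
  simp only [smul_eq_mul]
  rw [show a = 1 - b by linarith] at h1 ⊢
  exact h1

theorem norm_mk (x y : ℝ) : ‖(⟨x, y⟩ : ℂ)‖ = √(x ^ 2 + y ^ 2) := by
  rw [Complex.norm_eq_sqrt_sq_add_sq]

/-- growth at conformal matrices -/
theorem bd_p {Ψ : ℝ → ℝ → ℝ} (h : RCc (wi Ψ)) {s y : ℝ} (hs : 0 ≤ s) (hy : 0 ≤ y) :
    Ψ s s ≤ Ψ (√(s ^ 2 + y ^ 2) + y) (√(s ^ 2 + y ^ 2) - y) := by
  have h1 := h (⟨s, y⟩, ⟨0, y⟩) (⟨0, -(2 * y)⟩, ⟨0, -(2 * y)⟩) rfl (1 / 2) (by norm_num)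
    (by norm_num)
  have e1 : ((⟨s, y⟩ : ℂ), (⟨0, y⟩ : ℂ)) + (1 / 2 : ℝ) • ((⟨0, -(2 * y)⟩ : ℂ), (⟨0, -(2 * y)⟩ : ℂ))
      = ((s : ℂ), ((0 : ℝ) : ℂ)) := by
    ext1
    · apply Complex.ext <;> simp
    · apply Complex.ext <;> simp
  have e2 : ((⟨s, y⟩ : ℂ), (⟨0, y⟩ : ℂ)) + ((⟨0, -(2 * y)⟩ : ℂ), (⟨0, -(2 * y)⟩ : ℂ))
      = (⟨s, -y⟩, ⟨0, -y⟩) := by
    ext1
    · apply Complex.ext
      · simp
      · simp; ring
    · apply Complex.ext
      · simp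
      · simp; ring
  have n1 : ‖(⟨0, y⟩ : ℂ)‖ = y := by rw [norm_mk]; simp [Real.sqrt_sq hy]
  have n2 : ‖(⟨0, -y⟩ : ℂ)‖ = y := by rw [norm_mk]; simp [Real.sqrt_sq hy]
  have n3 : ‖(⟨s, -y⟩ : ℂ)‖ = √(s ^ 2 + y ^ 2) := by rw [norm_mk]; simp
  rw [e1, e2, wi_real hs le_rfl] at h1
  unfold wi at h1
  simp only [n1, n2, n3, norm_mk s y, add_zero, sub_zero] at h1
  linarith

/-- growth at anticonformal matrices -/
theorem bd_m {Ψ : ℝ → ℝ → ℝ} (h : RCc (wi Ψ)) {s y : ℝ} (hs : 0 ≤ s) (hy : 0 ≤ y) :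
    Ψ s (-s) ≤ Ψ (√(s ^ 2 + y ^ 2) + y) (-(√(s ^ 2 + y ^ 2) - y)) := by
  have h1 := h (⟨0, y⟩, ⟨s, y⟩) (⟨0, -(2 * y)⟩, ⟨0, -(2 * y)⟩) rfl (1 / 2) (by norm_num)
    (by norm_num)
  have e1 : ((⟨0, y⟩ : ℂ), (⟨s, y⟩ : ℂ)) + (1 / 2 : ℝ) • ((⟨0, -(2 * y)⟩ : ℂ), (⟨0, -(2 * y)⟩ : ℂ))
      = (((0 : ℝ) : ℂ), (s : ℂ)) := by
    ext1
    · apply Complex.ext <;> simp
    · apply Complex.ext <;> simp
  have e2 : ((⟨0, y⟩ : ℂ), (⟨s, y⟩ : ℂ)) + ((⟨0, -(2 * y)⟩ : ℂ), (⟨0, -(2 * y)⟩ : ℂ))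
      = (⟨0, -y⟩, ⟨s, -y⟩) := by
    ext1
    · apply Complex.ext
      · simp
      · simp; ring
    · apply Complex.ext
      · simp
      · simp; ring
  have n1 : ‖(⟨0, y⟩ : ℂ)‖ = y := by rw [norm_mk]; simp [Real.sqrt_sq hy]
  have n2 : ‖(⟨0, -y⟩ : ℂ)‖ = y := by rw [norm_mk]; simp [Real.sqrt_sq hy]
  have n3 : ‖(⟨s, -y⟩ : ℂ)‖ = √(s ^ 2 + y ^ 2) := by rw [norm_mk]; simp
  rw [e1, e2, wi_real le_rfl hs] at h1
  unfold wi at h1
  simp only [n1, n2, n3, norm_mk s y, zero_add, zero_sub] at h1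
  have e3 : y + √(s ^ 2 + y ^ 2) = √(s ^ 2 + y ^ 2) + y := by ring
  have e4 : y - √(s ^ 2 + y ^ 2) = -(√(s ^ 2 + y ^ 2) - y) := by ring
  rw [e3, e4] at h1
  linarith

end Pool.Agent.Y332.MD
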