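import Pool.Agent.Y332.MD.Rc
import Pool.Agent.TH937.FF4.Gen
import Pool.Agent.TH937.ZC.Ql2

/-!
# From smooth functions to the hypotheses of the support theorem
-/

set_option autoImplicit false

namespace Pool.Agent.Y332.MD

open MeasureTheory Set Filter Topology Metric
open scoped ComplexConjugate
open Pool.Agent.TH937.ZC

/-- partial derivative in the first variable -/
noncomputable def d1 (G : ℝ → ℝ → ℝ) (s v : ℝ) : ℝ := deriv (fun t => G t v) s

/-- partial derivative in the second variable -/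
noncomputable def d2 (G : ℝ → ℝ → ℝ) (s v : ℝ) : ℝ := deriv (fun t => G s t) v

/-- the function of two variables as a function on the plane -/
def un (G : ℝ → ℝ → ℝ) (z : ℝ × ℝ) : ℝ := G z.1 z.2

section

variable {G : ℝ → ℝ → ℝ}

theorem h1_of (h : Differentiable ℝ (un G)) (s v : ℝ) :
    HasDerivAt (fun t => G t v) (fderiv ℝ (un G) (s, v) (1, 0)) s := by
  have h1 : HasDerivAt (fun t : ℝ => ((t, v) : ℝ × ℝ)) ((1, 0) : ℝ × ℝ) s :=
    (hasDerivAt_id s).prodMk (hasDerivAt_const s v)
  exact (h (s, v)).hasFDerivAt.comp_hasDerivAt s h1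

theorem h2_of (h : Differentiable ℝ (un G)) (s v : ℝ) :
    HasDerivAt (fun t => G s t) (fderiv ℝ (un G) (s, v) (0, 1)) v := by
  have h1 : HasDerivAt (fun t : ℝ => ((s, t) : ℝ × ℝ)) ((0, 1) : ℝ × ℝ) v :=
    (hasDerivAt_const v s).prodMk (hasDerivAt_id v)
  exact (h (s, v)).hasFDerivAt.comp_hasDerivAt v h1

theorem d1_eq (h : Differentiable ℝ (un G)) (s v : ℝ) :
    d1 G s v = fderiv ℝ (un G) (s, v) (1, 0) := (h1_of h s v).deriv

theorem d2_eq (h : Differentiable ℝ (un G)) (s v : ℝ) :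
    d2 G s v = fderiv ℝ (un G) (s, v) (0, 1) := (h2_of h s v).deriv

theorem has1 (h : Differentiable ℝ (un G)) (s v : ℝ) :
    HasDerivAt (fun t => G t v) (d1 G s v) s := by
  rw [d1_eq h]; exact h1_of h s v

theorem has2 (h : Differentiable ℝ (un G)) (s v : ℝ) :
    HasDerivAt (fun t => G s t) (d2 G s v) v := by
  rw [d2_eq h]; exact h2_of h s v

theorem un_d1 (h : Differentiable ℝ (un G)) :
    un (d1 G) = fun z => fderiv ℝ (un G) z (1, 0) := by
  funext z; exact d1_eq h z.1 z.2

theorem un_d2 (h : Differentiable ℝ (un G)) :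
    un (d2 G) = fun z => fderiv ℝ (un G) z (0, 1) := by
  funext z; exact d2_eq h z.1 z.2

theorem cd1 {n : ℕ} (h : ContDiff ℝ (n + 1 : ℕ) (un G)) : ContDiff ℝ n (un (d1 G)) := by
  rw [un_d1 (h.differentiable (by simp))]
  exact (h.fderiv_right (m := n) (by norm_cast)).clm_apply contDiff_const

theorem cd2 {n : ℕ} (h : ContDiff ℝ (n + 1 : ℕ) (un G)) : ContDiff ℝ n (un (d2 G)) := by
  rw [un_d2 (h.differentiable (by simp))]
  exact (h.fderiv_right (m := n) (by norm_cast)).clm_apply contDiff_const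

theorem swap12 (h : ContDiff ℝ 2 (un G)) (s v : ℝ) : d2 (d1 G) s v = d1 (d2 G) s v := by
  have hd : Differentiable ℝ (un G) := h.differentiable (by norm_num)
  have hf : Differentiable ℝ (fderiv ℝ (un G)) :=
    (h.fderiv_right (m := 1) (by norm_num)).differentiable (by norm_num)
  have e1 : Differentiable ℝ (un (d1 G)) := by
    rw [un_d1 hd]; exact hf.clm_apply (differentiable_const _)
  have e2 : Differentiable ℝ (un (d2 G)) := by
    rw [un_d2 hd]; exact hf.clm_apply (differentiable_const _)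
  have hsymm : IsSymmSndFDerivAt ℝ (un G) (s, v) :=
    (h.contDiffAt).isSymmSndFDerivAt (by simp [minSmoothness])
  rw [d2_eq e1, d1_eq e2, un_d1 hd, un_d2 hd]
  have k1 : fderiv ℝ (fun z => fderiv ℝ (un G) z (1, 0)) (s, v) (0, 1)
      = fderiv ℝ (fderiv ℝ (un G)) (s, v) (0, 1) (1, 0) := by
    rw [fderiv_clm_apply (hf _) (differentiableAt_const _)]
    simp
  have k2 : fderiv ℝ (fun z => fderiv ℝ (un G) z (0, 1)) (s, v) (1, 0)
      = fderiv ℝ (fderiv ℝ (un G)) (s, v) (1, 0) (0, 1) := by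
    rw [fderiv_clm_apply (hf _) (differentiableAt_const _)]
    simp
  rw [k1, k2]
  exact hsymm _ _

end

end Pool.Agent.Y332.MD
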