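import Pool.Agent.Y332.MD.Mono

/-!
# The inequalities for the support function
-/

set_option autoImplicit false

namespace Pool.Agent.Y332.MD

open MeasureTheory Set Filter Topology intervalIntegral

theorem ii_mono {g : ℝ → ℝ} {s0 x y : ℝ} (hg : MonotoneOn g (Ici s0)) (hx : s0 ≤ x) (hy : s0 ≤ y) :
    IntervalIntegrable g volume x y := by
  apply MonotoneOn.intervalIntegrable
  apply hg.mono
  intro t ht
  exact (le_min hx hy).trans ht.1

/-- integrals of products with a nonnegative continuous weight -/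
theorem int_le_mul {g k : ℝ → ℝ} {x y c : ℝ} (hxy : x ≤ y) (hk : Continuous k)
    (hk0 : ∀ R ∈ Icc x y, 0 ≤ k R) (hg : IntervalIntegrable g volume x y)
    (hc : ∀ R ∈ Icc x y, g R ≤ c) : ∫ R in x..y, g R * k R ≤ c * ∫ R in x..y, k R := by
  rw [← intervalIntegral.integral_const_mul]
  refine integral_mono_on hxy (hg.mul_continuousOn hk.continuousOn)
    ((hk.const_mul c).intervalIntegrable x y) fun R hR => ?_
  exact mul_le_mul_of_nonneg_right (hc R hR) (hk0 R hR)

theorem mul_le_int {g k : ℝ → ℝ} {x y c : ℝ} (hxy : x ≤ y) (hk : Continuous k)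
    (hk0 : ∀ R ∈ Icc x y, 0 ≤ k R) (hg : IntervalIntegrable g volume x y)
    (hc : ∀ R ∈ Icc x y, c ≤ g R) : c * ∫ R in x..y, k R ≤ ∫ R in x..y, g R * k R := by
  rw [← intervalIntegral.integral_const_mul]
  refine integral_mono_on hxy ((hk.const_mul c).intervalIntegrable x y)
    (hg.mul_continuousOn hk.continuousOn) fun R hR => ?_
  exact mul_le_mul_of_nonneg_right (hc R hR) (hk0 R hR)

namespace Co

variable {Ψ p q m w : ℝ → ℝ → ℝ} (D : Co Ψ p q m w) {s0 v0 : ℝ}

section
include D

theorem e_ii (h0 : |v0| < s0) {x y : ℝ} (hx : v0 ≤ x) (hy : v0 ≤ y) :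
    IntervalIntegrable (fun τ => m (max s0 τ) τ) volume x y := by
  have h : Continuous (fun τ => m (max s0 τ) τ) :=
    D.cm.comp (by fun_prop : Continuous fun τ => (max s0 τ, τ))
  exact h.intervalIntegrable x y

theorem w_nn (h0 : |v0| < s0) {R : ℝ} (hR : s0 ≤ R) : 0 ≤ w R v0 := D.w0 R v0 (h0.le.trans hR)

theorem lip (h0 : |v0| < s0) (S : ℝ) : ∃ C, 0 ≤ C ∧ ∀ x y, s0 ≤ x → x ≤ y → y ≤ S →
    m x v0 - m y v0 ≤ C * (y - x) := by
  obtain ⟨C, hC⟩ := (isCompact_Icc (a := s0) (b := S)).exists_bound_of_continuousOn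
    (D.cws v0).continuousOn
  refine ⟨max C 0, le_max_right _ _, fun x y hx hxy hy => ?_⟩
  rw [← D.int_w v0 x y]
  have h1 : ∫ R in x..y, w R v0 ≤ ∫ R in x..y, max C 0 := by
    refine integral_mono_on hxy ((D.cws v0).intervalIntegrable x y)
      (continuous_const.intervalIntegrable x y) fun R hR => ?_
    have := hC R ⟨hx.trans hR.1, hR.2.trans hy⟩
    rw [Real.norm_eq_abs] at this
    exact (le_abs_self _).trans (this.trans (le_max_left _ _))
  rw [intervalIntegral.integral_const, smul_eq_mul] at h1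
  linarith

/-- the lower bound for `p` along the broken path -/
theorem P_low (h0 : |v0| < s0) {τ : ℝ} (hτ : v0 ≤ τ) :
    p s0 v0 + ∫ t in v0..τ, m (max s0 t) t ≤ p (max s0 τ) τ := by
  have hv := abs_lt.1 h0
  have key := mono_small (f := fun t => p (max s0 t) t - ∫ u in v0..t, m (max s0 u) u)
    (ρ := fun t => -(m (max s0 t) t)) (a := v0) (b := τ) (C := 1) hτ ?_
  · simp only [integral_same, sub_zero] at key
    rw [max_eq_left (by linarith : v0 ≤ s0)] at key
    linarith
  · intro x hx y hy hxy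
    have hX : |x| ≤ max s0 x := by
      rw [abs_le]
      constructor
      · have := le_max_left s0 x; linarith [hx.1]
      · exact le_max_right _ _
    have h1 : p (max s0 x) x ≤ p (max s0 y) x :=
      D.C1 x _ _ hX (max_le_max le_rfl hxy)
    have h2 : (y - x) * m (max s0 y) y ≤ p (max s0 y) y - p (max s0 y) x := by
      rw [← D.int_mv (max s0 y) x y]
      have h3 : ∫ t in x..y, m (max s0 y) y ≤ ∫ t in x..y, m (max s0 y) t := by
        refine integral_mono_on hxy (continuous_const.intervalIntegrable x y)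
          ((D.cmv _).intervalIntegrable x y) fun t ht => ?_
        exact D.M2 _ t y (by have := le_max_left s0 y; linarith [hx.1, ht.1]) ht.2 (le_max_right _ _)
      rwa [intervalIntegral.integral_const, smul_eq_mul] at h3
    have h4 : (∫ u in v0..y, m (max s0 u) u) - ∫ u in v0..x, m (max s0 u) u
        = ∫ u in x..y, m (max s0 u) u := by
      rw [integral_interval_sub_left (D.e_ii h0 le_rfl hy.1) (D.e_ii h0 le_rfl hx.1)]
    have h5 : ∫ u in x..y, m (max s0 u) u ≤ (y - x) * m (max s0 x) x := by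
      have h6 : ∫ u in x..y, m (max s0 u) u ≤ ∫ u in x..y, m (max s0 x) x := by
        refine integral_mono_on hxy (D.e_ii h0 hx.1 hy.1)
          (continuous_const.intervalIntegrable x y) fun t ht => ?_
        exact D.e_anti h0 hx.1 ht.1
      rwa [intervalIntegral.integral_const, smul_eq_mul] at h6
    nlinarith

/-- the increment of `p` dominates the area under the curve -/
theorem A_ge (h0 : |v0| < s0) {s τ : ℝ} (hs : s0 ≤ s) (hτ : v0 ≤ τ) (hτs : τ ≤ s) :
    ∫ t in v0..τ, (m (max s0 t) t - m s v0) ≤ p s v0 - p s0 v0 := by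
  have hv := abs_lt.1 h0
  have h1 := D.P_low h0 hτ
  have hX : |τ| ≤ max s0 τ := by
    rw [abs_le]
    constructor
    · have := le_max_left s0 τ; linarith
    · exact le_max_right _ _
  have h2 : p (max s0 τ) τ ≤ p s τ := D.C1 τ _ _ hX (max_le hs hτs)
  have h3 := D.int_mv s v0 τ
  have h4 : ∫ t in v0..τ, m s t ≤ (τ - v0) * m s v0 := by
    have h6 : ∫ t in v0..τ, m s t ≤ ∫ t in v0..τ, m s v0 := by
      refine integral_mono_on hτ ((D.cmv s).intervalIntegrable _ _)
        (continuous_const.intervalIntegrable _ _) fun t ht => ?_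
      exact D.M2 s v0 t (by linarith) ht.1 (ht.2.trans hτs)
    rwa [intervalIntegral.integral_const, smul_eq_mul] at h6
  rw [integral_sub (D.e_ii h0 le_rfl hτ) (continuous_const.intervalIntegrable _ _),
    intervalIntegral.integral_const, smul_eq_mul]
  linarith

theorem rii (h0 : |v0| < s0) {x y : ℝ} (hx : s0 ≤ x) (hy : s0 ≤ y) :
    IntervalIntegrable (rr m s0 v0) volume x y := ii_mono (D.rr_monoOn h0) hx hy

theorem G_le (h0 : |v0| < s0) {s : ℝ} (hs : s0 ≤ s) :
    ∫ R in s0..s, (rr m s0 v0 R - v0) * w R v0 ≤ p s v0 - p s0 v0 := by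
  have hv := abs_lt.1 h0
  obtain ⟨C, hC, hlip⟩ := D.lip h0 s
  have hgi : ∀ x y, s0 ≤ x → s0 ≤ y → IntervalIntegrable (fun R => rr m s0 v0 R - v0) volume x y :=
    fun x y hx hy => (D.rii h0 hx hy).sub (continuous_const.intervalIntegrable _ _)
  have hgi2 : ∀ x y, s0 ≤ x → s0 ≤ y →
      IntervalIntegrable (fun R => (rr m s0 v0 R - v0) * w R v0) volume x y :=
    fun x y hx hy => (hgi x y hx hy).mul_continuousOn (D.cws v0).continuousOn
  have key := mono_small
    (f := fun x => (∫ t in v0..(rr m s0 v0 x), (m (max s0 t) t - m x v0))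
      - ∫ R in s0..x, (rr m s0 v0 R - v0) * w R v0)
    (ρ := rr m s0 v0) (a := s0) (b := s) (C := C) hs ?_
  · simp only [integral_same, sub_zero] at key
    have h1 := D.A_ge h0 hs (D.rr_ge h0 hs) (D.rr_le h0 hs)
    have h2 : 0 ≤ ∫ t in v0..(rr m s0 v0 s0), (m (max s0 t) t - m s0 v0) := by
      have h3 : IntervalIntegrable (fun t => m (max s0 t) t - m s0 v0) volume v0 (rr m s0 v0 s0) :=
        (D.e_ii h0 le_rfl (D.rr_ge h0 le_rfl)).sub (continuous_const.intervalIntegrable _ _)
      rw [integral_of_le (D.rr_ge h0 le_rfl), MeasureTheory.integral_Ioc_eq_integral_Ioo]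
      refine setIntegral_nonneg measurableSet_Ioo fun t ht => ?_
      have := D.rr_gt h0 le_rfl ht.2 ht.1.le
      linarith
    linarith
  · intro x hx y hy hxy
    have e1 : (∫ R in s0..y, (rr m s0 v0 R - v0) * w R v0)
        - ∫ R in s0..x, (rr m s0 v0 R - v0) * w R v0
        = ∫ R in x..y, (rr m s0 v0 R - v0) * w R v0 :=
      integral_interval_sub_left (hgi2 _ _ le_rfl hy.1) (hgi2 _ _ le_rfl hx.1)
    have e2 : ∫ R in x..y, (rr m s0 v0 R - v0) * w R v0
        ≤ (rr m s0 v0 y - v0) * (m x v0 - m y v0) := by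
      rw [← D.int_w v0 x y]
      refine int_le_mul hxy (D.cws v0) (fun R hR => D.w_nn h0 (hx.1.trans hR.1))
        (hgi x y hx.1 hy.1) fun R hR => ?_
      have := D.rr_mono h0 (hx.1.trans hR.1) hR.2
      linarith
    have hd : 0 ≤ m x v0 - m y v0 := sub_nonneg.2 (D.M1 v0 x y (h0.le.trans hx.1) hxy)
    have hr := D.rr_mono h0 hx.1 hxy
    have hrx := D.rr_ge h0 hx.1
    have hry := D.rr_ge h0 hy.1
    -- the area
    have a1 : ∀ a b, v0 ≤ a → v0 ≤ b →
        IntervalIntegrable (fun t => m (max s0 t) t - m y v0) volume a b := fun a b ha hb =>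
      (D.e_ii h0 ha hb).sub (continuous_const.intervalIntegrable _ _)
    have e3 : ∫ t in v0..(rr m s0 v0 y), (m (max s0 t) t - m y v0)
        = (∫ t in v0..(rr m s0 v0 x), (m (max s0 t) t - m y v0))
          + ∫ t in (rr m s0 v0 x)..(rr m s0 v0 y), (m (max s0 t) t - m y v0) :=
      (integral_add_adjacent_intervals (a1 _ _ le_rfl hrx) (a1 _ _ hrx hry)).symm
    have e4 : 0 ≤ ∫ t in (rr m s0 v0 x)..(rr m s0 v0 y), (m (max s0 t) t - m y v0) := by
      rw [integral_of_le hr, MeasureTheory.integral_Ioc_eq_integral_Ioo]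
      refine setIntegral_nonneg measurableSet_Ioo fun t ht => ?_
      have := D.rr_gt h0 hy.1 ht.2 (hrx.trans ht.1.le)
      linarith
    have e5 : ∫ t in v0..(rr m s0 v0 x), (m (max s0 t) t - m y v0)
        = (∫ t in v0..(rr m s0 v0 x), (m (max s0 t) t - m x v0))
          + (rr m s0 v0 x - v0) * (m x v0 - m y v0) := by
      rw [integral_sub (D.e_ii h0 le_rfl hrx) (continuous_const.intervalIntegrable _ _),
        integral_sub (D.e_ii h0 le_rfl hrx) (continuous_const.intervalIntegrable _ _),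
        intervalIntegral.integral_const, intervalIntegral.integral_const, smul_eq_mul, smul_eq_mul]
      ring
    have h7 := hlip x y hx.1 hxy hy.2
    have h8 : (rr m s0 v0 y - rr m s0 v0 x) * (m x v0 - m y v0)
        ≤ C * (y - x) * (rr m s0 v0 y - rr m s0 v0 x) := by nlinarith
    rw [e3, e5]
    nlinarith

end

end Co

end Pool.Agent.Y332.MD
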