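import Pool.Agent.Y332.MD.Sup

/-!
# The inequalities for the support function, second part
-/

set_option autoImplicit false

namespace Pool.Agent.Y332.MD

open MeasureTheory Set Filter Topology intervalIntegral

/-- mean value inequality, lower form -/
theorem mvt_ge {f f' : ℝ → ℝ} {x y c : ℝ} (hxy : x ≤ y) (h : ∀ t, HasDerivAt f (f' t) t)
    (hc : ∀ t ∈ Icc x y, c ≤ f' t) : c * (y - x) ≤ f y - f x := by
  have hd : ∀ t, deriv f t = f' t := fun t => (h t).deriv
  refine Convex.mul_sub_le_image_sub_of_le_deriv (convex_Icc x y)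
    (fun t _ => (h t).continuousAt.continuousWithinAt)
    (fun t _ => (h t).differentiableAt.differentiableWithinAt) ?_ x (left_mem_Icc.2 hxy) y
    (right_mem_Icc.2 hxy) hxy
  intro t ht
  rw [hd]
  exact hc t (interior_subset ht)

namespace Co

variable {Ψ p q m w : ℝ → ℝ → ℝ} (D : Co Ψ p q m w) {s0 v0 : ℝ}

section
include D

theorem conv_v {s v v' : ℝ} (h1 : |v| ≤ s) (h2 : |v'| ≤ s) :
    Ψ s v + (v' - v) * q s v ≤ Ψ s v' := by
  have a1 := abs_le.1 h1
  have a2 := abs_le.1 h2
  rcases le_total v v' with h | h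
  · have := mvt_ge (f := fun t => Ψ s t) (f' := fun t => q s t) (c := q s v) h (fun t => D.dv s t)
      (fun t ht => D.C2 s v t a1.1 ht.1 (ht.2.trans a2.2))
    linarith
  · have := mvt_ge (f := fun t => -Ψ s t) (f' := fun t => -q s t) (c := -q s v) h
      (fun t => (D.dv s t).neg)
      (fun t ht => neg_le_neg (D.C2 s t v (a2.1.trans ht.1) ht.2 a1.2))
    linarith

theorem conv_s {s s' v : ℝ} (h1 : |v| ≤ s) (h2 : |v| ≤ s') :
    Ψ s v + (s' - s) * p s v ≤ Ψ s' v := by
  rcases le_total s s' with h | h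
  · have := mvt_ge (f := fun t => Ψ t v) (f' := fun t => p t v) (c := p s v) h (fun t => D.ds t v)
      (fun t ht => D.C1 v s t h1 ht.1)
    linarith
  · have := mvt_ge (f := fun t => -Ψ t v) (f' := fun t => -p t v) (c := -p s v) h
      (fun t => (D.ds t v).neg)
      (fun t ht => neg_le_neg (D.C1 v t s (h2.trans ht.1) ht.2))
    linarith

theorem Up {s v : ℝ} (hs : 0 < s) (hv : |v| ≤ s) : 0 ≤ (s - v) * m s v + p s v - q s v := by
  have a := abs_le.1 hv
  have h1 := D.int_mv s v s
  have h2 : ∫ t in v..s, m s t ≤ ∫ t in v..s, m s v := by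
    refine integral_mono_on a.2 ((D.cmv s).intervalIntegrable _ _)
      (continuous_const.intervalIntegrable _ _) fun t ht => ?_
    exact D.M2 s v t a.1 ht.1 ht.2
  rw [intervalIntegral.integral_const, smul_eq_mul] at h2
  have h3 := D.C2 s v s a.1 a.2 le_rfl
  have h4 := D.Bp s hs
  linarith

theorem Um {s v : ℝ} (hs : 0 < s) (hv : |v| ≤ s) : 0 ≤ p s v + q s v - (s + v) * m s v := by
  have a := abs_le.1 hv
  have h1 := D.int_mv s (-s) v
  have h2 : ∫ t in (-s)..v, m s v ≤ ∫ t in (-s)..v, m s t := by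
    refine integral_mono_on a.1 (continuous_const.intervalIntegrable _ _)
      ((D.cmv s).intervalIntegrable _ _) fun t ht => ?_
    exact D.M2 s t v ht.1 ht.2 a.2
  rw [intervalIntegral.integral_const, smul_eq_mul] at h2
  have h3 := D.C2 s (-s) v le_rfl a.1 a.2
  have h4 := D.Bm s hs
  linarith

theorem int_Rw (x y : ℝ) :
    ∫ R in x..y, (R - v0) * w R v0 = (x - v0) * m x v0 - (y - v0) * m y v0 + (q y v0 - q x v0) := by
  have h := integral_eq_sub_of_hasDerivAt (f := fun R => -((R - v0) * m R v0) + q R v0)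
    (f' := fun R => (R - v0) * w R v0) (a := x) (b := y) (fun R _ => by
      have h1 : HasDerivAt (fun R : ℝ => R - v0) 1 R := (hasDerivAt_id R).sub_const v0
      have h2 := ((h1.mul (D.ms R v0)).neg).add (D.qs R v0)
      refine h2.congr_deriv ?_
      ring) (((continuous_id.sub continuous_const).mul (D.cws v0)).intervalIntegrable x y)
  rw [h]; ring

theorem int_sRw (s x : ℝ) :
    ∫ R in x..s, (s - R) * w R v0 = (s - x) * m x v0 - (q s v0 - q x v0) := by
  have h := integral_eq_sub_of_hasDerivAt (f := fun R => -((s - R) * m R v0) - q R v0)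
    (f' := fun R => (s - R) * w R v0) (a := x) (b := s) (fun R _ => by
      have h1 : HasDerivAt (fun R : ℝ => s - R) (-1) R := (hasDerivAt_id R).const_sub s
      have h2 := ((h1.mul (D.ms R v0)).neg).sub (D.qs R v0)
      refine h2.congr_deriv ?_
      ring) (((continuous_const.sub continuous_id).mul (D.cws v0)).intervalIntegrable x s)
  rw [h]; ring

theorem gii (h0 : |v0| < s0) (v : ℝ) {x y : ℝ} (hx : s0 ≤ x) (hy : s0 ≤ y) :
    IntervalIntegrable (fun R => max (v - rr m s0 v0 R) 0) volume x y := by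
  have h : AntitoneOn (fun R => max (v - rr m s0 v0 R) 0) (Ici s0) := by
    intro a ha b hb hab
    exact max_le_max (by linarith [D.rr_mono h0 ha hab]) le_rfl
  apply AntitoneOn.intervalIntegrable
  apply h.mono
  intro t ht
  exact (le_min hx hy).trans ht.1

theorem gwii (h0 : |v0| < s0) (v : ℝ) {x y : ℝ} (hx : s0 ≤ x) (hy : s0 ≤ y) :
    IntervalIntegrable (fun R => max (v - rr m s0 v0 R) 0 * w R v0) volume x y :=
  (D.gii h0 v hx hy).mul_continuousOn (D.cws v0).continuousOn

theorem Z_le (h0 : |v0| < s0) {σ v x : ℝ} (hσ : s0 ≤ σ) (hv : v0 ≤ v) (hvσ : v ≤ σ)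
    (hx : σ ≤ x) : ∫ R in σ..x, max (v - rr m s0 v0 R) 0 * w R v0
      ≤ ∫ τ in v0..v, (m σ v0 - m σ τ) := by
  have hv0 := abs_lt.1 h0
  obtain ⟨C, hC, hlip⟩ := D.lip h0 x
  have ce : Continuous (fun τ => m (max s0 τ) τ) :=
    D.cm.comp (by fun_prop : Continuous fun τ => (max s0 τ, τ))
  obtain ⟨E, hE⟩ : ∃ E : ℝ → ℝ → ℝ,
    E = fun z τ => max (min (m (max s0 τ) τ) (m σ v0)) (m z v0) := ⟨_, rfl⟩
  have cE : ∀ z, Continuous (E z) := by
    intro z; rw [hE]; exact ((ce.min continuous_const).max continuous_const)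
  have key := mono_small
    (f := fun z => (∫ τ in v0..v, (m σ v0 - E z τ))
      - ∫ R in σ..z, max (v - rr m s0 v0 R) 0 * w R v0)
    (ρ := rr m s0 v0) (a := σ) (b := x) (C := C) hx ?_
  · simp only [integral_same, sub_zero] at key
    have h1 : ∫ τ in v0..v, (m σ v0 - E σ τ) = 0 := by
      have : ∀ τ, m σ v0 - E σ τ = 0 := by
        intro τ
        rw [hE]
        simp only
        rw [max_eq_right (min_le_right _ _), sub_self]
      simp [this]
    have h2 : ∫ τ in v0..v, (m σ v0 - E x τ) ≤ ∫ τ in v0..v, (m σ v0 - m σ τ) := by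
      refine integral_mono_on hv ((continuous_const.sub (cE x)).intervalIntegrable _ _)
        ((continuous_const.sub (D.cmv σ)).intervalIntegrable _ _) fun τ hτ => ?_
      have hτ' : |τ| ≤ max s0 τ := by
        rw [abs_le]
        constructor
        · have := le_max_left s0 τ; linarith [hτ.1]
        · exact le_max_right _ _
      have e1 : m σ τ ≤ m (max s0 τ) τ := D.M1 τ _ _ hτ' (max_le hσ (hτ.2.trans hvσ))
      have e2 : m σ τ ≤ m σ v0 := D.M2 σ v0 τ (by linarith) hτ.1 (hτ.2.trans hvσ)
      have e3 : m σ τ ≤ E x τ := by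
        rw [hE]
        exact (le_min e1 e2).trans (le_max_left _ _)
      linarith
    linarith
  · intro a ha b hb hab
    have ha0 : s0 ≤ a := hσ.trans ha.1
    have hb0 : s0 ≤ b := hσ.trans hb.1
    have e1 : (∫ R in σ..b, max (v - rr m s0 v0 R) 0 * w R v0)
        - ∫ R in σ..a, max (v - rr m s0 v0 R) 0 * w R v0
        = ∫ R in a..b, max (v - rr m s0 v0 R) 0 * w R v0 :=
      integral_interval_sub_left (D.gwii h0 v hσ hb0) (D.gwii h0 v hσ ha0)
    have e2 : ∫ R in a..b, max (v - rr m s0 v0 R) 0 * w R v0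
        ≤ max (v - rr m s0 v0 a) 0 * (m a v0 - m b v0) := by
      rw [← D.int_w v0 a b]
      refine int_le_mul hab (D.cws v0) (fun R hR => D.w_nn h0 (ha0.trans hR.1))
        (D.gii h0 v ha0 hb0) fun R hR => ?_
      have := D.rr_mono h0 ha0 hR.1
      exact max_le_max (by linarith) le_rfl
    have hd : 0 ≤ m a v0 - m b v0 := sub_nonneg.2 (D.M1 v0 a b (h0.le.trans ha0) hab)
    have hr := D.rr_mono h0 ha0 hab
    have e3 : (∫ τ in v0..v, (m σ v0 - E b τ)) - ∫ τ in v0..v, (m σ v0 - E a τ)
        = ∫ τ in v0..v, (E a τ - E b τ) := by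
      have hsub := integral_sub (f := fun τ => m σ v0 - E b τ) (g := fun τ => m σ v0 - E a τ)
        (a := v0) (b := v) (μ := volume)
        ((continuous_const.sub (cE b)).intervalIntegrable _ _)
        ((continuous_const.sub (cE a)).intervalIntegrable _ _)
      rw [← hsub]
      congr 1
      ext τ
      ring
    have e0 : ∀ τ, 0 ≤ E a τ - E b τ := by
      intro τ
      rw [hE]
      simp only
      have := max_le_max (le_refl (min (m (max s0 τ) τ) (m σ v0))) (sub_nonneg.1 hd)
      linarith
    have e4 : max (v - rr m s0 v0 b) 0 * (m a v0 - m b v0) ≤ ∫ τ in v0..v, (E a τ - E b τ) := by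
      rcases le_total v (rr m s0 v0 b) with h | h
      · rw [max_eq_right (by linarith), zero_mul]
        exact integral_nonneg hv fun τ _ => e0 τ
      · rw [max_eq_left (by linarith)]
        have hrb := D.rr_ge h0 hb0
        have hii : ∀ x y, IntervalIntegrable (fun τ => E a τ - E b τ) volume x y := fun x y =>
          ((cE a).sub (cE b)).intervalIntegrable x y
        rw [← integral_add_adjacent_intervals (hii v0 (rr m s0 v0 b)) (hii (rr m s0 v0 b) v)]
        have k1 : 0 ≤ ∫ τ in v0..(rr m s0 v0 b), (E a τ - E b τ) :=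
          integral_nonneg hrb fun τ _ => e0 τ
        have k2 : ∫ τ in (rr m s0 v0 b)..v, (m a v0 - m b v0)
            ≤ ∫ τ in (rr m s0 v0 b)..v, (E a τ - E b τ) := by
          rw [integral_of_le h, integral_of_le h, MeasureTheory.integral_Ioc_eq_integral_Ioo,
            MeasureTheory.integral_Ioc_eq_integral_Ioo]
          refine setIntegral_mono_on (continuous_const.integrableOn_Icc.mono_set Ioo_subset_Icc_self)
            (((cE a).sub (cE b)).integrableOn_Icc.mono_set Ioo_subset_Icc_self)
            measurableSet_Ioo fun τ hτ => ?_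
          have l1 := D.rr_lt h0 hb0 hτ.1 (hτ.2.le.trans (hvσ.trans hb.1))
          rw [hE]
          simp only
          rw [max_eq_right ((min_le_left _ _).trans (by linarith : m (max s0 τ) τ ≤ m a v0)),
            max_eq_right ((min_le_left _ _).trans l1.le)]
        rw [intervalIntegral.integral_const, smul_eq_mul] at k2
        linarith
    have h7 := hlip a b ha0 hab hb.2
    have h8 : max (v - rr m s0 v0 a) 0 - max (v - rr m s0 v0 b) 0 ≤ rr m s0 v0 b - rr m s0 v0 a := by
      rcases le_total (v - rr m s0 v0 a) 0 with h | h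
      · rw [max_eq_right h, max_eq_right (by linarith)]; linarith
      · rw [max_eq_left h]
        have := le_max_left (v - rr m s0 v0 b) 0
        linarith
    have h9 : (max (v - rr m s0 v0 a) 0 - max (v - rr m s0 v0 b) 0) * (m a v0 - m b v0)
        ≤ (rr m s0 v0 b - rr m s0 v0 a) * (m a v0 - m b v0) := mul_le_mul_of_nonneg_right h8 hd
    have h10 : (rr m s0 v0 b - rr m s0 v0 a) * (m a v0 - m b v0)
        ≤ (rr m s0 v0 b - rr m s0 v0 a) * (C * (b - a)) :=
      mul_le_mul_of_nonneg_left h7 (by linarith)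
    have e1' := e1
    linarith

end

end Co

end Pool.Agent.Y332.MD
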