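import Pool.Agent.Y332.MD.Sup2

/-!
# The inequalities for the support function, third part
-/

set_option autoImplicit false

namespace Pool.Agent.Y332.MD

open MeasureTheory Set Filter Topology intervalIntegral

/-- increments of `∫ R in x..S, (R - x) k R` -/
theorem tail_incr {k : ℝ → ℝ} {s0 x y S : ℝ} (hx : s0 ≤ x) (hxy : x ≤ y) (hyS : y ≤ S)
    (hi : ∀ a b, s0 ≤ a → s0 ≤ b → IntervalIntegrable k volume a b) (hk : ∀ R, s0 ≤ R → 0 ≤ k R) :
    (∫ R in x..S, (R - x) * k R) - ∫ R in y..S, (R - y) * k R ≤ (y - x) * ∫ R in x..S, k R := by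
  have hy : s0 ≤ y := hx.trans hxy
  have hS : s0 ≤ S := hy.trans hyS
  have hi2 : ∀ c a b, s0 ≤ a → s0 ≤ b → IntervalIntegrable (fun R => (R - c) * k R) volume a b :=
    fun c a b ha hb => (hi a b ha hb).continuousOn_mul (by fun_prop)
  have e1 := integral_add_adjacent_intervals (hi2 x x y hx hy) (hi2 x y S hy hS)
  have e2 := integral_add_adjacent_intervals (hi x y hx hy) (hi y S hy hS)
  have e3 : ∫ R in x..y, (R - x) * k R ≤ (y - x) * ∫ R in x..y, k R := by
    rw [← intervalIntegral.integral_const_mul]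
    refine integral_mono_on hxy (hi2 x x y hx hy) ((hi x y hx hy).const_mul _) fun R hR => ?_
    exact mul_le_mul_of_nonneg_right (by linarith [hR.2]) (hk R (hx.trans hR.1))
  have e4 : (∫ R in y..S, (R - x) * k R) - ∫ R in y..S, (R - y) * k R
      = (y - x) * ∫ R in y..S, k R := by
    rw [← intervalIntegral.integral_const_mul, ← integral_sub (hi2 x y S hy hS) (hi2 y y S hy hS)]
    congr 1
    ext R
    ring
  rw [← e1, ← e2]
  linarith

/-- increments of `∫ R in s0..x, (x - R) k R` -/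
theorem head_incr {k : ℝ → ℝ} {s0 x y : ℝ} (hx : s0 ≤ x) (hxy : x ≤ y)
    (hi : ∀ a b, s0 ≤ a → s0 ≤ b → IntervalIntegrable k volume a b) (hk : ∀ R, s0 ≤ R → 0 ≤ k R) :
    (∫ R in s0..y, (y - R) * k R) - ∫ R in s0..x, (x - R) * k R ≤ (y - x) * ∫ R in s0..y, k R := by
  have hy : s0 ≤ y := hx.trans hxy
  have hi2 : ∀ c a b, s0 ≤ a → s0 ≤ b → IntervalIntegrable (fun R => (c - R) * k R) volume a b :=
    fun c a b ha hb => (hi a b ha hb).continuousOn_mul (by fun_prop)
  have e1 := integral_add_adjacent_intervals (hi2 y s0 x le_rfl hx) (hi2 y x y hx hy)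
  have e2 := integral_add_adjacent_intervals (hi s0 x le_rfl hx) (hi x y hx hy)
  have e3 : ∫ R in x..y, (y - R) * k R ≤ (y - x) * ∫ R in x..y, k R := by
    rw [← intervalIntegral.integral_const_mul]
    refine integral_mono_on hxy (hi2 y x y hx hy) ((hi x y hx hy).const_mul _) fun R hR => ?_
    exact mul_le_mul_of_nonneg_right (by linarith [hR.1]) (hk R (hx.trans hR.1))
  have e4 : (∫ R in s0..x, (y - R) * k R) - ∫ R in s0..x, (x - R) * k R
      = (y - x) * ∫ R in s0..x, k R := by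
    rw [← intervalIntegral.integral_const_mul, ← integral_sub (hi2 y s0 x le_rfl hx)
      (hi2 x s0 x le_rfl hx)]
    congr 1
    ext R
    ring
  rw [← e1, ← e2]
  linarith

namespace Co

variable {Ψ p q m w : ℝ → ℝ → ℝ} (D : Co Ψ p q m w) {s0 v0 : ℝ}

section
include D

theorem int_nonneg' (h0 : |v0| < s0) {k : ℝ → ℝ} (hk : ∀ R, s0 ≤ R → 0 ≤ k R) {x y : ℝ}
    (hx : s0 ≤ x) (hxy : x ≤ y) : 0 ≤ ∫ R in x..y, k R :=
  integral_nonneg hxy fun R hR => hk R (hx.trans hR.1)

theorem I1 (h0 : |v0| < s0) {s v S : ℝ} (hs : s0 ≤ s) (hsS : s ≤ S) (hv : v0 ≤ v) (hvs : v ≤ s) :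
    ∫ R in s..S, (R - s) * (max (v - rr m s0 v0 R) 0 * w R v0)
      ≤ Ψ s v - Ψ s v0 - (v - v0) * q s v0 := by
  have hv0 := abs_lt.1 h0
  have hk : ∀ R, s0 ≤ R → 0 ≤ max (v - rr m s0 v0 R) 0 * w R v0 := fun R hR =>
    mul_nonneg (le_max_right _ _) (D.w_nn h0 hR)
  have hi : ∀ a b, s0 ≤ a → s0 ≤ b →
      IntervalIntegrable (fun R => max (v - rr m s0 v0 R) 0 * w R v0) volume a b :=
    fun a b ha hb => D.gwii h0 v ha hb
  have key := mono_small
    (f := fun x => (∫ R in x..S, (R - x) * (max (v - rr m s0 v0 R) 0 * w R v0))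
      * (-1) + (Ψ x v - Ψ x v0 - (v - v0) * q x v0) |> fun t => -t)
    (ρ := fun x => -∫ R in x..S, max (v - rr m s0 v0 R) 0 * w R v0) (a := s) (b := S) (C := 1)
    hsS ?_
  · simp only [integral_same] at key
    have h1 := D.conv_v (s := S) (v := v0) (v' := v) (h0.le.trans (hs.trans hsS))
      (abs_le.2 ⟨by linarith, hvs.trans hsS⟩)
    linarith
  · intro x hx y hy hxy
    have hx0 : s0 ≤ x := hs.trans hx.1
    have hy0 : s0 ≤ y := hs.trans hy.1
    have h1 := tail_incr hx0 hxy hy.2 hi hk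
    have h2 : (∫ R in y..S, max (v - rr m s0 v0 R) 0 * w R v0) * (y - x)
        ≤ (-(Ψ y v - Ψ y v0 - (v - v0) * q y v0)) - (-(Ψ x v - Ψ x v0 - (v - v0) * q x v0)) := by
      refine mvt_ge (f := fun x => -(Ψ x v - Ψ x v0 - (v - v0) * q x v0))
        (f' := fun x => -(p x v - p x v0 - (v - v0) * m x v0)) hxy
        (fun t => (((D.ds t v).sub (D.ds t v0)).sub ((D.qs t v0).const_mul (v - v0))).neg) ?_
      intro t ht
      have ht0 : s0 ≤ t := hx0.trans ht.1
      have k1 := D.Z_le h0 ht0 hv (hvs.trans (hx.1.trans ht.1)) (ht.2.trans hy.2)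
      have k2 : ∫ R in y..S, max (v - rr m s0 v0 R) 0 * w R v0
          ≤ ∫ R in t..S, max (v - rr m s0 v0 R) 0 * w R v0 := by
        rw [← integral_add_adjacent_intervals (hi t y ht0 hy0) (hi y S hy0 (hy0.trans hy.2))]
        have := D.int_nonneg' h0 hk ht0 ht.2
        linarith
      rw [integral_sub (continuous_const.intervalIntegrable _ _)
        ((D.cmv t).intervalIntegrable _ _), D.int_mv, intervalIntegral.integral_const,
        smul_eq_mul] at k1
      linarith
    simp only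
    linarith

/-- the threshold -/
theorem thr (h0 : |v0| < s0) {Rm : ℝ} (hR : s0 ≤ Rm) : ∃ S, s0 ≤ S ∧ S ≤ Rm ∧
    (∫ R in s0..S, (R - rr m s0 v0 R) * w R v0 ≤ (s0 - v0) * m s0 v0 + p s0 v0 - q s0 v0) ∧
    (S < Rm → ∫ R in s0..S, (R - rr m s0 v0 R) * w R v0
      = (s0 - v0) * m s0 v0 + p s0 v0 - q s0 v0) := by
  have hpos : 0 < s0 := lt_of_le_of_lt (abs_nonneg v0) h0
  have hU := D.Up (s := s0) (v := v0) hpos h0.le
  rcases le_total (∫ R in s0..Rm, (R - rr m s0 v0 R) * w R v0)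
    ((s0 - v0) * m s0 v0 + p s0 v0 - q s0 v0) with h | h
  · exact ⟨Rm, hR, le_rfl, h, fun h' => absurd h' (lt_irrefl _)⟩
  · have hii : IntervalIntegrable (fun R => (R - rr m s0 v0 R) * w R v0) volume s0 Rm :=
      (((continuous_id.intervalIntegrable _ _).sub (D.rii h0 le_rfl hR)).mul_continuousOn
        (D.cws v0).continuousOn)
    have hc : ContinuousOn (fun S => ∫ R in s0..S, (R - rr m s0 v0 R) * w R v0) (Icc s0 Rm) := by
      have := continuousOn_primitive_interval' hii (left_mem_uIcc)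
      rwa [uIcc_of_le hR] at this
    have him := intermediate_value_Icc hR hc
    obtain ⟨S, hS, hS2⟩ := him ⟨by simpa using hU, h⟩
    exact ⟨S, hS.1, hS.2, hS2.le, fun _ => hS2⟩

end

end Co

end Pool.Agent.Y332.MD
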